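import Pool.Agent.Lib.P325F.Defs

/-!
# Module Basic (1.5 h)

Double sums over edges and vertices (`Finset.sum_comm`, `Finset.sum_ite_eq`).
* `aj_zero`: `0 ≤ aj x y ≤ ∑ y, aj x y = dg x`.
* `MM_mulVec_sqrt`: at `x` with `dg x = 0` both sides are `0`; otherwise the summand at `y` is `aj x y / √(dg x)`
  (`aj x y = 0` if `dg y = 0`), the sum is `dg x / √(dg x) = √(dg x)`.
* `bil`: `∑ x, ∑ y, H x * (aj x y / (√dg x √dg y)) * H' y = ∑ x, ∑ y, aj x y G x G' y` with `G = H / √dg` (division by zero is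
  zero on both sides), then exchange with the sum over the edges.
* `sum_dg_sq`: exchange sums. `dot_ge`: `dg x * (H x / √dg x)^2 = H x ^ 2` if `0 < dg x`, else `0`.
* `contr`: by `bil` and `2ab ≤ a^2+b^2`, `H ⬝ᵥ (MM *ᵥ H') ≤ (H ⬝ᵥ H + H' ⬝ᵥ H') / 2` for all `H, H'`; take `H = MM *ᵥ h`, `H' = h`.
-/

set_option autoImplicit false

open Finset Matrix

namespace Pool.Agent.Lib.P325F

variable {V ι : Type} [Fintype V] [DecidableEq V] [Fintype ι] {s t : ι → V} {w : ι → ℝ}

theorem dg_nonneg (hw : ∀ e, 0 ≤ w e) (x : V) : 0 ≤ dg s t w x := by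
  unfold dg
  refine Finset.sum_nonneg fun e _ => mul_nonneg (hw e) ?_
  split_ifs <;> norm_num

theorem aj_nonneg (hw : ∀ e, 0 ≤ w e) (x y : V) : 0 ≤ aj s t w x y := by
  unfold aj
  refine Finset.sum_nonneg fun e _ => mul_nonneg (hw e) ?_
  split_ifs <;> norm_num

theorem aj_symm (x y : V) : aj s t w x y = aj s t w y x := by
  unfold aj
  exact Finset.sum_congr rfl fun e _ => by rw [add_comm]

theorem sum_aj (x : V) : ∑ y, aj s t w x y = dg s t w x := by
  unfold aj dg
  rw [Finset.sum_comm]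
  refine Finset.sum_congr rfl fun e _ => ?_
  rw [← Finset.mul_sum, Finset.sum_add_distrib]
  congr 2
  · by_cases h : s e = x
    · simp [h]
    · simp [h]
  · by_cases h : t e = x
    · simp [h]
    · simp [h]

/-- sums over the edges of functions of the ends -/
theorem sum_dg_mul (F : V → ℝ) :
    ∑ x, dg s t w x * F x = ∑ e, w e * (F (s e) + F (t e)) := by
  unfold dg
  simp_rw [Finset.sum_mul]
  rw [Finset.sum_comm]
  refine Finset.sum_congr rfl fun e _ => ?_
  simp_rw [mul_assoc]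
  rw [← Finset.mul_sum]
  congr 1
  simp_rw [add_mul]
  rw [Finset.sum_add_distrib]
  simp

theorem sum_dg : ∑ x, dg s t w x = 2 * ∑ e, w e := by
  have h := sum_dg_mul (s := s) (t := t) (w := w) (fun _ => 1)
  simp only [mul_one] at h
  rw [h, Finset.mul_sum]
  exact Finset.sum_congr rfl fun e _ => by ring

theorem aj_zero (hw : ∀ e, 0 ≤ w e) {x : V} (h : dg s t w x = 0) (y : V) :
    aj s t w x y = 0 := by
  refine le_antisymm ?_ (aj_nonneg hw x y)
  rw [← h, ← sum_aj x]
  exact Finset.single_le_sum (f := fun y => aj s t w x y) (fun z _ => aj_nonneg hw x z)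
    (Finset.mem_univ y)

theorem MM_transpose : (MM s t w)ᵀ = MM s t w := by
  ext x y
  simp only [Matrix.transpose_apply, MM]
  rw [aj_symm, mul_comm]

theorem MM_nonneg (hw : ∀ e, 0 ≤ w e) (x y : V) : 0 ≤ MM s t w x y :=
  div_nonneg (aj_nonneg hw x y) (mul_nonneg (Real.sqrt_nonneg _) (Real.sqrt_nonneg _))

theorem MM_zero (hw : ∀ e, 0 ≤ w e) {x : V} (h : dg s t w x = 0) (y : V) :
    MM s t w x y = 0 := by
  simp only [MM]
  rw [aj_zero hw h, zero_div]

theorem MM_mulVec_sqrt (hw : ∀ e, 0 ≤ w e) :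
    MM s t w *ᵥ (fun x => √(dg s t w x)) = fun x => √(dg s t w x) := by
  ext x
  simp only [Matrix.mulVec, dotProduct]
  by_cases hx : dg s t w x = 0
  · rw [hx, Real.sqrt_zero]
    exact Finset.sum_eq_zero fun y _ => by rw [MM_zero hw hx, zero_mul]
  · have hx0 : 0 < dg s t w x := lt_of_le_of_ne (dg_nonneg hw x) (Ne.symm hx)
    have hs : √(dg s t w x) ≠ 0 := (Real.sqrt_pos.2 hx0).ne'
    have h1 : ∀ y, MM s t w x y * √(dg s t w y) = aj s t w x y / √(dg s t w x) := by
      intro y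
      simp only [MM]
      by_cases hy : dg s t w y = 0
      · rw [aj_symm, aj_zero hw hy]
        simp
      · have hy0 : 0 < dg s t w y := lt_of_le_of_ne (dg_nonneg hw y) (Ne.symm hy)
        have hs' : √(dg s t w y) ≠ 0 := (Real.sqrt_pos.2 hy0).ne'
        field_simp
    rw [Finset.sum_congr rfl fun y _ => h1 y, ← Finset.sum_div, sum_aj, div_eq_iff hs,
      Real.mul_self_sqrt hx0.le]

namespace BasicAux

theorem sum_aj_mul (G G' : V → ℝ) :
    ∑ x, ∑ y, aj s t w x y * (G x * G' y) =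
      ∑ e, w e * (G (s e) * G' (t e) + G (t e) * G' (s e)) := by
  unfold aj
  simp_rw [Finset.sum_mul]
  rw [Finset.sum_congr rfl fun x _ => Finset.sum_comm]
  rw [Finset.sum_comm]
  refine Finset.sum_congr rfl fun e _ => ?_
  simp_rw [mul_assoc, ← Finset.mul_sum]
  congr 1
  simp_rw [add_mul, Finset.sum_add_distrib]
  congr 1
  · rw [Finset.sum_eq_single (s e), Finset.sum_eq_single (t e)]
    · simp
    · intro y _ hy
      rw [if_neg (fun h => hy h.2.symm), zero_mul]
    · simp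
    · intro x _ hx
      exact Finset.sum_eq_zero fun y _ => by rw [if_neg (fun h => hx h.1.symm), zero_mul]
    · simp
  · rw [Finset.sum_eq_single (t e), Finset.sum_eq_single (s e)]
    · simp
    · intro y _ hy
      rw [if_neg (fun h => hy h.1.symm), zero_mul]
    · simp
    · intro x _ hx
      exact Finset.sum_eq_zero fun y _ => by rw [if_neg (fun h => hx h.2.symm), zero_mul]
    · simp

end BasicAux

theorem bil (hw : ∀ e, 0 ≤ w e) (H H' : V → ℝ) :
    H ⬝ᵥ (MM s t w *ᵥ H') = ∑ e, w e *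
      (H (s e) / √(dg s t w (s e)) * (H' (t e) / √(dg s t w (t e))) +
        H (t e) / √(dg s t w (t e)) * (H' (s e) / √(dg s t w (s e)))) := by
  rw [← BasicAux.sum_aj_mul (fun x => H x / √(dg s t w x)) (fun x => H' x / √(dg s t w x))]
  simp only [Matrix.mulVec, dotProduct]
  refine Finset.sum_congr rfl fun x _ => ?_
  rw [Finset.mul_sum]
  refine Finset.sum_congr rfl fun y _ => ?_
  simp only [MM, div_eq_mul_inv, mul_inv]
  ring

theorem dot_ge (hw : ∀ e, 0 ≤ w e) (H : V → ℝ) :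
    ∑ e, w e * ((H (s e) / √(dg s t w (s e))) ^ 2 + (H (t e) / √(dg s t w (t e))) ^ 2) ≤
      H ⬝ᵥ H := by
  rw [← sum_dg_mul (fun x => (H x / √(dg s t w x)) ^ 2)]
  simp only [dotProduct]
  refine Finset.sum_le_sum fun x _ => ?_
  by_cases hx : dg s t w x = 0
  · rw [hx, zero_mul]
    exact mul_self_nonneg _
  · have hx0 : 0 < dg s t w x := lt_of_le_of_ne (dg_nonneg hw x) (Ne.symm hx)
    rw [div_pow, Real.sq_sqrt hx0.le, mul_div_cancel₀ _ hx, sq]

namespace BasicAux

theorem dot_le (hw : ∀ e, 0 ≤ w e) (H H' : V → ℝ) :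
    H ⬝ᵥ (MM s t w *ᵥ H') ≤ (H ⬝ᵥ H + H' ⬝ᵥ H') / 2 := by
  rw [bil hw]
  have h1 := dot_ge (s := s) (t := t) hw H
  have h2 := dot_ge (s := s) (t := t) hw H'
  have h3 : ∑ e, w e *
      (H (s e) / √(dg s t w (s e)) * (H' (t e) / √(dg s t w (t e))) +
        H (t e) / √(dg s t w (t e)) * (H' (s e) / √(dg s t w (s e)))) ≤
      ∑ e, (w e * ((H (s e) / √(dg s t w (s e))) ^ 2 + (H (t e) / √(dg s t w (t e))) ^ 2) +
        w e * ((H' (s e) / √(dg s t w (s e))) ^ 2 + (H' (t e) / √(dg s t w (t e))) ^ 2)) / 2 := by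
    refine Finset.sum_le_sum fun e _ => ?_
    have := hw e
    generalize H (s e) / √(dg s t w (s e)) = a
    generalize H (t e) / √(dg s t w (t e)) = b
    generalize H' (s e) / √(dg s t w (s e)) = c
    generalize H' (t e) / √(dg s t w (t e)) = d
    nlinarith [mul_nonneg this (sq_nonneg (a - d)), mul_nonneg this (sq_nonneg (b - c))]
  rw [← Finset.sum_div, Finset.sum_add_distrib] at h3
  linarith

end BasicAux

theorem contr (hw : ∀ e, 0 ≤ w e) (h : V → ℝ) :
    (MM s t w *ᵥ h) ⬝ᵥ (MM s t w *ᵥ h) ≤ h ⬝ᵥ h := by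
  have := BasicAux.dot_le (s := s) (t := t) hw (MM s t w *ᵥ h) h
  linarith

end Pool.Agent.Lib.P325F
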