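import Pool.Agent.Lib.P325u.Loop
import Pool.Agent.Lib.P325u.Defs

/-!
# Module Cond (1.5 h): conditioning, and the facts about the covariance kernel

`exists_corr`: if not, `P325u.loop` with `δ = 1/R`, `R + 1` steps and `M = 1 - (R+1)/R < 0` gives a partition with `avVar ≤ M < 0`, against `avVar_nonneg`
(`D.card ≤ R + 1`, so `D.card + 1 ≤ r`: `R + 2 ≤ r`).
`cov_psd`: the sum is `cov E P F F` with `F = ∑ p, z p • ind p.1 p.2` (`cov_sum_left`, `cov_sum_right`, `cov_smul_left`, `cov_smul_right`), `F ∈ degreeLE V L 1`, `cov_self_nonneg`.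
`cov_null`: `0 ≤ E (P α * ind x a * ind y b) ≤ E (ind y b) = 0` and `0 ≤ E (P α * ind y b) ≤ E (ind y b) = 0` (`hE.nonneg` for the functions
`ind y b - P α * ind x a * ind y b ≥ 0` and `ind y b - P α * ind y b ≥ 0`, which depend on the labels of the at most `D.card + 2` vertices `D ∪ {x, y}`).
-/

set_option autoImplicit false

open Finset Pool.Agent.Lib.P325u

namespace Pool.Agent.Lib.P325F

variable {V L : Type} [Fintype V] [DecidableEq V] [Fintype L] [DecidableEq L]
  {E : ((V → L) → ℝ) →ₗ[ℝ] ℝ} {r : ℕ}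

theorem exists_corr (hE : IsPseudoExpectation r E) (μ : V → ℝ) (hμ : ∀ x, 0 ≤ μ x)
    (hμ1 : ∑ x, μ x = 1) {R : ℕ} (hR : 0 < R) (hRr : R + 2 ≤ r) :
    ∃ (κ : Type) (_ : Fintype κ) (P : κ → (V → L) → ℝ) (D : Finset V), IsPart P D ∧
      D.card + 2 ≤ r ∧ ∑ x, ∑ a, ∑ y, ∑ b, μ x * μ y *
        (cov E P (ind x a) (ind y b) ^ 2 / E (ind y b)) ≤ 1 / R := by
  by_contra hcon
  push Not at hcon
  have hR0 : (0 : ℝ) < R := by exact_mod_cast hR
  obtain ⟨κ, hκ, P, D, hP, hD, hM⟩ := loop hE μ hμ hμ1 (1 - ((R + 1 : ℕ) : ℝ) * (1 / R)) (1 / R)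
    (R + 1) le_rfl (by omega) (fun κ _ P D hP hD _ => (hcon κ inferInstance P D hP hD).le)
  have h0 := avVar_nonneg hE hP (by omega) μ hμ
  have h1 : 1 - ((R + 1 : ℕ) : ℝ) * (1 / R) < 0 := by
    push_cast
    have : ((R : ℝ) + 1) * (1 / R) = 1 + 1 / R := by field_simp
    rw [this]
    have : (0 : ℝ) < 1 / R := by positivity
    linarith
  linarith

theorem cov_psd (hE : IsPseudoExpectation r E) {κ : Type} [Fintype κ]
    {P : κ → (V → L) → ℝ} {D : Finset V} (hP : IsPart P D) (hD : D.card + 1 ≤ r)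
    (z : V × L → ℝ) : 0 ≤ ∑ p, ∑ q, z p * z q * cov E P (ind p.1 p.2) (ind q.1 q.2) := by
  have hF : (∑ p : V × L, z p • (ind p.1 p.2 : (V → L) → ℝ)) ∈ degreeLE V L 1 :=
    Submodule.sum_mem _ fun p _ => Submodule.smul_mem _ _ (ind_mem p.1 p.2)
  have h := hP.cov_self_nonneg hE hD hF
  have e : cov E P (∑ p : V × L, z p • (ind p.1 p.2 : (V → L) → ℝ))
      (∑ p : V × L, z p • (ind p.1 p.2 : (V → L) → ℝ)) =
      ∑ p, ∑ q, z p * z q * cov E P (ind p.1 p.2) (ind q.1 q.2) := by
    rw [cov_sum_left]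
    refine Finset.sum_congr rfl fun p _ => ?_
    rw [cov_smul_left, cov_sum_right, Finset.mul_sum]
    refine Finset.sum_congr rfl fun q _ => ?_
    rw [cov_smul_right]
    ring
  rwa [e] at h

theorem cov_null (hE : IsPseudoExpectation r E) {κ : Type} [Fintype κ]
    {P : κ → (V → L) → ℝ} {D : Finset V} (hP : IsPart P D) (hD : D.card + 2 ≤ r)
    (x y : V) (a b : L) (h : E (ind y b) = 0) : cov E P (ind x a) (ind y b) = 0 := by
  have h1 : ∀ α, 0 ≤ E (P α * ind y b) := by
    intro α
    apply hP.E_two_nonneg hE hD α x y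
    · intro σ σ' _ h2
      unfold ind
      rw [h2]
    · exact ind_nonneg y b
  have h2 : ∀ α, E (P α * ind y b) = 0 := by
    have h3 : ∑ α, E (P α * ind y b) = 0 := by rw [hP.sum_mul, h]
    intro α
    exact (Finset.sum_eq_zero_iff_of_nonneg fun α _ => h1 α).1 h3 α (Finset.mem_univ _)
  have h3 : ∀ α, E (P α * ind x a * ind y b) = 0 := by
    intro α
    apply le_antisymm
    · have h4 := hP.E_two_nonneg hE hD α x y (fun σ => ind y b σ - ind x a σ * ind y b σ) (by
        intro σ σ' h1 h2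
        unfold ind
        rw [h1, h2]) (by
        intro σ
        unfold ind
        split_ifs <;> norm_num)
      have h5 : (P α * fun σ => ind y b σ - ind x a σ * ind y b σ) =
          P α * ind y b - P α * ind x a * ind y b := by
        funext σ
        simp only [Pi.mul_apply, Pi.sub_apply]
        ring
      rw [h5, map_sub, h2 α] at h4
      linarith
    · have h4 := hP.E_two_nonneg hE hD α x y (fun σ => ind x a σ * ind y b σ) (by
        intro σ σ' h1 h2
        unfold ind
        rw [h1, h2]) (by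
        intro σ
        exact mul_nonneg (ind_nonneg x a σ) (ind_nonneg y b σ))
      have h5 : (P α * fun σ => ind x a σ * ind y b σ) = P α * ind x a * ind y b := by
        funext σ
        simp only [Pi.mul_apply]
        ring
      rwa [h5] at h4
  unfold cov
  apply Finset.sum_eq_zero
  intro α _
  rw [h3, h2]
  simp

theorem nonempty_labelings (hE : IsPseudoExpectation r E) : Nonempty (V → L) := by
  by_contra hne
  rw [not_nonempty_iff] at hne
  have h1 : (fun _ => 1 : (V → L) → ℝ) = 0 := by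
    funext σ
    exact (hne.false σ).elim
  have h2 := hE.one
  rw [h1, map_zero] at h2
  exact zero_ne_one h2

end Pool.Agent.Lib.P325F
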