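import Pool.Agent.Lib.P325F.Lift
import Pool.Agent.Lib.P325s.LiftPow
import Pool.Agent.Lib.P325s.Moment

/-!
# Module Corr (2 h): small correlation at random places implies small correlation along the edges

`moment_even`: let `m k = trace (X * A^k)`. By Cauchy-Schwarz for the positive semidefinite form `(B, B') ↦ trace (B X B'ᵀ)`, or by `P325s.sq_trace_le`-type arguments:
`m (j+k)^2 ≤ m (2j) * m (2k)` (`0 ≤ trace ((a A^j - b A^k) X (a A^j - b A^k))` for all real `a b`), and `m (2k) ≥ 0`. Put `b k = m (2k)`: `b (k+1)^2 ≤ b k * b (k+2)`,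
`(m 1)^2 ≤ b 0 * b 1`. By induction `b 1 ^ k ≤ b 0 ^ (k-1) * b k` (log-convexity; if some `b j = 0` then `b 1 = 0`), so with `0 < b 0 ≤ 1`:
`(m 1)^(2k) ≤ b 0 ^ k * b 1 ^ k ≤ b 0 ^ (2k-1) * b k ≤ b k`. If `b 0 = 0`, then `X = 0`.

`corr_le`: `μ x = dg x/(2m)`, `X p q = √(μ p.1) * √(μ q.1) * C p q` is positive semidefinite (`hCp` with `z p * √(μ p.1)`), `trace X ≤ 1` by `hC1`, `trace (X * LL) = c` where
`c = (∑ e, w e * ∑ a, C ..)/m` (`trace_LL`). If `c ≤ 0` there is nothing to do. `J = 1`: `c = trace (X * LL^1)`; `J` even: `c^J ≤ trace (X * LL^J)` (`moment_even`). In both cases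
`c^(2J) ≤ (trace (X * LL^J))^2 ≤ (∑ p, ∑ q, X p q^2/κ q) * (∑ q, κ q * (LL^(2J)) q q)` (`P325s.frob`) `≤ K * trace (MM^(2J)) ≤ K * Q ≤ τ^(2J)` (`P325s.lift_pow`), where `K` is the
first factor of `hK` (`X p q ^2 = μ μ C^2`, `K ≥ 0`). So `c ≤ τ`.
-/

set_option autoImplicit false

open Finset Matrix

namespace Pool.Agent.Lib.P325F

namespace CorrAux

theorem cs {P : Type} [Fintype P] [DecidableEq P] {X B C : Matrix P P ℝ}
    (hX : X.PosSemidef) (hB : B.IsSymm) (hC : C.IsSymm) (hBC : B * C = C * B) :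
    (X * (B * C)).trace ^ 2 ≤ (X * (B * B)).trace * (X * (C * C)).trace := by
  have key : ∀ r : ℝ, 0 ≤ (X * (C * C)).trace * (r * r) + (-(2 * (X * (B * C)).trace)) * r +
      (X * (B * B)).trace := by
    intro r
    have h1 := hX.conjTranspose_mul_mul_same (B - r • C)
    have h2 := h1.trace_nonneg
    have h3 : (B - r • C).conjTranspose = B - r • C := by
      rw [Matrix.conjTranspose_eq_transpose_of_trivial, Matrix.transpose_sub, hB,
        Matrix.transpose_smul, hC]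
    rw [h3] at h2
    have h4 : ((B - r • C) * X * (B - r • C)).trace =
        (X * (C * C)).trace * (r * r) + (-(2 * (X * (B * C)).trace)) * r +
          (X * (B * B)).trace := by
      have h5 : (B - r • C) * (B - r • C) = B * B - (2 * r) • (B * C) + (r * r) • (C * C) := by
        simp only [Matrix.sub_mul, Matrix.mul_sub, Matrix.smul_mul, Matrix.mul_smul, ← hBC]
        module
      rw [Matrix.trace_mul_cycle, Matrix.trace_mul_comm, h5]
      simp only [Matrix.mul_add, Matrix.mul_sub, Matrix.mul_smul,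
        Matrix.trace_add, Matrix.trace_sub, Matrix.trace_smul, smul_eq_mul]
      ring
    rw [h4] at h2
    exact h2
  have h := discrim_le_zero key
  unfold discrim at h
  nlinarith [h]

theorem even_nonneg {P : Type} [Fintype P] [DecidableEq P] {X B : Matrix P P ℝ}
    (hX : X.PosSemidef) (hB : B.IsSymm) : 0 ≤ (X * (B * B)).trace := by
  have h1 := hX.conjTranspose_mul_mul_same B
  have h2 := h1.trace_nonneg
  have h3 : B.conjTranspose = B := by
    rw [Matrix.conjTranspose_eq_transpose_of_trivial, hB]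
  rw [h3, Matrix.trace_mul_cycle, Matrix.trace_mul_comm] at h2
  exact h2

theorem logconvex {b : ℕ → ℝ} (h0 : ∀ k, 0 ≤ b k)
    (h : ∀ k, b (k + 1) ^ 2 ≤ b k * b (k + 2)) (k : ℕ) : b k * b 1 ≤ b 0 * b (k + 1) := by
  induction k with
  | zero => simp
  | succ k ih =>
    rcases (h0 k).eq_or_lt with hk | hk
    · have h1 : b (k + 1) ^ 2 ≤ 0 := by
        have := h k
        rw [← hk, zero_mul] at this
        exact this
      have h2 : b (k + 1) = 0 := by
        have := sq_nonneg (b (k + 1))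
        exact pow_eq_zero_iff (two_ne_zero) |>.1 (le_antisymm h1 this)
      rw [h2, zero_mul]
      exact mul_nonneg (h0 0) (h0 _)
    · have h3 : b k * (b (k + 1) * b 1) ≤ b k * (b 0 * b (k + 1 + 1)) := by
        calc b k * (b (k + 1) * b 1) = (b k * b 1) * b (k + 1) := by ring
          _ ≤ (b 0 * b (k + 1)) * b (k + 1) := mul_le_mul_of_nonneg_right ih (h0 _)
          _ = b 0 * b (k + 1) ^ 2 := by ring
          _ ≤ b 0 * (b k * b (k + 2)) := mul_le_mul_of_nonneg_left (h k) (h0 0)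
          _ = b k * (b 0 * b (k + 1 + 1)) := by ring
      exact le_of_mul_le_mul_left h3 hk

theorem pow_logconvex {b : ℕ → ℝ} (h0 : ∀ k, 0 ≤ b k)
    (h : ∀ k, b (k + 1) ^ 2 ≤ b k * b (k + 2)) (k : ℕ) :
    b 1 ^ (k + 1) ≤ b 0 ^ k * b (k + 1) := by
  induction k with
  | zero => simp
  | succ k ih =>
    calc b 1 ^ (k + 1 + 1) = b 1 ^ (k + 1) * b 1 := by rw [pow_succ]
      _ ≤ (b 0 ^ k * b (k + 1)) * b 1 := mul_le_mul_of_nonneg_right ih (h0 _)
      _ = b 0 ^ k * (b (k + 1) * b 1) := by ring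
      _ ≤ b 0 ^ k * (b 0 * b (k + 1 + 1)) :=
        mul_le_mul_of_nonneg_left (logconvex h0 h (k + 1)) (pow_nonneg (h0 0) _)
      _ = b 0 ^ (k + 1) * b (k + 1 + 1) := by ring

end CorrAux

theorem moment_even {P : Type} [Fintype P] [DecidableEq P] {X A : Matrix P P ℝ}
    (hX : X.PosSemidef) (hA : A.IsSymm) (htr : X.trace ≤ 1) {J : ℕ} (hJ : Even J) (hJ0 : 0 < J) :
    (X * A).trace ^ J ≤ (X * A ^ J).trace := by
  obtain ⟨k, hk⟩ := hJ
  obtain ⟨n, rfl⟩ : ∃ n, k = n + 1 := ⟨k - 1, by omega⟩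
  have hsym : ∀ i : ℕ, (A ^ i).IsSymm := by
    intro i
    unfold Matrix.IsSymm
    rw [Matrix.transpose_pow, hA]
  have hpow : ∀ i : ℕ, A ^ (2 * i) = A ^ i * A ^ i := by
    intro i
    rw [← pow_add]
    congr 1
    ring
  set b : ℕ → ℝ := fun i => (X * A ^ (2 * i)).trace with hb
  have h0 : ∀ i, 0 ≤ b i := by
    intro i
    simp only [hb]
    rw [hpow]
    exact CorrAux.even_nonneg hX (hsym i)
  have h1 : ∀ i, b (i + 1) ^ 2 ≤ b i * b (i + 2) := by
    intro i
    have h2 := CorrAux.cs hX (hsym i) (hsym (i + 2)) (by rw [← pow_add, ← pow_add, add_comm])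
    simp only [hb]
    rw [hpow i, hpow (i + 2)]
    have h3 : A ^ (2 * (i + 1)) = A ^ i * A ^ (i + 2) := by
      rw [← pow_add]
      congr 1
      ring
    rw [h3]
    exact h2
  have h4 : (X * A).trace ^ 2 ≤ b 0 * b 1 := by
    have h5 := CorrAux.cs hX (hsym 0) (hsym 1) (by rw [← pow_add, ← pow_add, add_comm])
    simp only [hb]
    rw [hpow 0, hpow 1]
    simpa using h5
  have hb0 : b 0 ≤ 1 := by
    simp only [hb]
    simpa using htr
  have h6 := CorrAux.pow_logconvex h0 h1 n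
  have h7 : (X * A ^ J).trace = b (n + 1) := by
    simp only [hb]
    rw [hk]
    congr 3
    ring
  rw [h7, hk, ← two_mul, pow_mul]
  calc ((X * A).trace ^ 2) ^ (n + 1) ≤ (b 0 * b 1) ^ (n + 1) :=
        pow_le_pow_left₀ (sq_nonneg _) h4 _
    _ = b 0 ^ (n + 1) * b 1 ^ (n + 1) := mul_pow _ _ _
    _ ≤ b 0 ^ (n + 1) * (b 0 ^ n * b (n + 1)) :=
        mul_le_mul_of_nonneg_left h6 (pow_nonneg (h0 0) _)
    _ = (b 0 ^ (n + 1) * b 0 ^ n) * b (n + 1) := by ring
    _ ≤ 1 * b (n + 1) := by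
        refine mul_le_mul_of_nonneg_right ?_ (h0 _)
        rw [← pow_add]
        exact pow_le_one₀ (h0 0) hb0
    _ = b (n + 1) := one_mul _

variable {V ι L : Type} [Fintype V] [DecidableEq V] [Fintype ι] [Fintype L] [DecidableEq L]
  {s t : ι → V} {w : ι → ℝ}

theorem corr_le (perm : ι → Equiv.Perm L) (hw : ∀ e, 0 ≤ w e) (hm : 0 < ∑ e, w e)
    {C : V × L → V × L → ℝ} (hC : ∀ p q, C p q = C q p)
    (hCp : ∀ z : V × L → ℝ, 0 ≤ ∑ p, ∑ q, z p * z q * C p q)
    (hC1 : ∑ x, dg s t w x / (2 * ∑ e, w e) * ∑ a, C (x, a) (x, a) ≤ 1) {κ : V × L → ℝ}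
    (hκ0 : ∀ q, 0 ≤ κ q) (hκ1 : ∀ x, ∑ a, κ (x, a) = 1) (hκC : ∀ p q, κ q = 0 → C p q = 0)
    {J : ℕ} (hJ : J = 1 ∨ Even J) (hJ0 : 0 < J) {Q τ : ℝ} (hτ : 0 < τ)
    (htr : (MM s t w ^ (2 * J)).trace ≤ Q)
    (hK : (∑ x, ∑ a, ∑ y, ∑ b, dg s t w x / (2 * ∑ e, w e) * (dg s t w y / (2 * ∑ e, w e)) *
      (C (x, a) (y, b) ^ 2 / κ (y, b))) * Q ≤ τ ^ (2 * J)) :
    ∑ e, w e * ∑ a, C (s e, a) (t e, perm e a) ≤ τ * ∑ e, w e := by
  set m : ℝ := ∑ e, w e with hmdef
  have hμ0 : ∀ x, 0 ≤ dg s t w x / (2 * m) := fun x =>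
    div_nonneg (dg_nonneg hw x) (by positivity)
  have htrL := trace_LL (s := s) (t := t) perm hw hm hC
  rw [← hmdef] at htrL
  set X : Matrix (V × L) (V × L) ℝ := Matrix.of fun p q : V × L =>
    √(dg s t w p.1 / (2 * m)) * √(dg s t w q.1 / (2 * m)) * C p q with hXdef
  have hX : X.PosSemidef := by
    refine Matrix.PosSemidef.of_dotProduct_mulVec_nonneg ?_ ?_
    · refine Matrix.IsHermitian.ext fun p q => ?_
      simp only [hXdef, Matrix.of_apply, star_trivial]
      rw [hC q p]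
      ring
    · intro z
      have h := hCp (fun p => z p * √(dg s t w p.1 / (2 * m)))
      refine le_of_le_of_eq h ?_
      simp only [dotProduct, Matrix.mulVec, star_trivial, Finset.mul_sum, hXdef, Matrix.of_apply]
      refine sum_congr rfl fun p _ => sum_congr rfl fun q _ => ?_
      ring
  have htrX : X.trace ≤ 1 := by
    refine le_of_eq_of_le ?_ hC1
    unfold Matrix.trace
    rw [Fintype.sum_prod_type]
    refine sum_congr rfl fun x _ => ?_
    rw [mul_sum]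
    refine sum_congr rfl fun a _ => ?_
    simp only [Matrix.diag_apply, hXdef, Matrix.of_apply]
    rw [Real.mul_self_sqrt (hμ0 x)]
  set c : ℝ := (∑ e, w e * ∑ a, C (s e, a) (t e, perm e a)) / m with hc
  have hcm : ∑ e, w e * ∑ a, C (s e, a) (t e, perm e a) = c * m := by
    rw [hc, div_mul_cancel₀ _ hm.ne']
  rw [hcm]
  refine mul_le_mul_of_nonneg_right ?_ hm.le
  by_contra hlt
  push Not at hlt
  have hcpos : 0 < c := hτ.trans hlt
  have h1 : c ^ J ≤ (X * LL s t perm w ^ J).trace := by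
    rcases hJ with rfl | hJ
    · rw [pow_one, pow_one, htrL]
    · have h2 := moment_even hX (LL_symm (s := s) (t := t) (w := w) perm) htrX hJ hJ0
      rw [htrL] at h2
      exact h2
  have h3 := P325s.frob (X := X) (LL_symm (s := s) (t := t) (w := w) perm) hκ0 (by
    intro p q hq
    simp only [hXdef, Matrix.of_apply]
    rw [hκC p q hq, mul_zero]) J
  have h4 := P325s.lift_pow (M := MM s t w) (M' := LL s t perm w) (LL_nonneg perm hw)
    (LL_row perm) hκ0 hκ1 (2 * J)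
  have h5 : ∑ p, ∑ q, X p q ^ 2 / κ q = ∑ x, ∑ a, ∑ y, ∑ b, dg s t w x / (2 * m) *
      (dg s t w y / (2 * m)) * (C (x, a) (y, b) ^ 2 / κ (y, b)) := by
    rw [Fintype.sum_prod_type]
    refine sum_congr rfl fun x _ => sum_congr rfl fun a _ => ?_
    rw [Fintype.sum_prod_type]
    refine sum_congr rfl fun y _ => sum_congr rfl fun b _ => ?_
    simp only [hXdef, Matrix.of_apply]
    rw [mul_pow, mul_pow, Real.sq_sqrt (hμ0 x), Real.sq_sqrt (hμ0 y), mul_div_assoc]
  rw [h5] at h3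
  have hK0 : 0 ≤ ∑ x, ∑ a, ∑ y, ∑ b, dg s t w x / (2 * m) *
      (dg s t w y / (2 * m)) * (C (x, a) (y, b) ^ 2 / κ (y, b)) :=
    sum_nonneg fun x _ => sum_nonneg fun a _ => sum_nonneg fun y _ => sum_nonneg fun b _ =>
      mul_nonneg (mul_nonneg (hμ0 x) (hμ0 y)) (div_nonneg (sq_nonneg _) (hκ0 _))
  have h6 : (c ^ J) ^ 2 ≤ τ ^ (2 * J) := by
    calc (c ^ J) ^ 2 ≤ (X * LL s t perm w ^ J).trace ^ 2 :=
          pow_le_pow_left₀ (pow_nonneg hcpos.le _) h1 2
      _ ≤ _ := h3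
      _ ≤ _ := mul_le_mul_of_nonneg_left (h4.trans htr) hK0
      _ ≤ τ ^ (2 * J) := hK
  rw [← pow_mul, mul_comm J 2] at h6
  have h7 : c ≤ τ := (pow_le_pow_iff_left₀ hcpos.le hτ.le (by omega)).1 h6
  exact absurd h7 (not_le.2 hlt)

end Pool.Agent.Lib.P325F
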