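import Pool.Agent.Lib.P325F.SmallSet

/-!
# Module Decomp (2.5 h): one round of the decomposition

`m = ∑ w`. If `m = 0` take `R = ∅`, `k = 0`. Let `m > 0`.
Strong induction on `card R0` for the following statement (`w` and `m` fixed): for every `R0` there are `R ⊆ R0` and sets `S i ⊆ R0`, pairwise
disjoint, and `U i > Q` with `card (S i) ≤ 16 N/√(U i)`, `(∑ ins R) = 0 ∨ trace (MM (ins R) ^ (2J)) ≤ Q` and
`∑ ins R0 ≤ ∑ ins R + (m / (4 N)) * card {x ∈ R0 | 0 < dg w x} + ∑ i, 64 * U i ^ (Γ-1) * ∑ e, ins (S i) e`.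
Let `w0 = ins s t w R0`, `m0 = ∑ w0 ≤ m`. Note `ins (ins w R0) S = ins w S` for `S ⊆ R0`, `dg w0 ≤ dg w`, `dg w0 x = 0` for `x ∉ R0`.
* `m0 = 0`: `R = R0`. So let `m0 > 0`.
* Some `x ∈ R0` has `0 < dg w0 x < m/(4N)`: apply the induction hypothesis to `R0 \ {x}`; `∑ ins R0 ≤ ∑ ins (R0 \ {x}) + dg w0 x`, and
  `x` is counted in `card {x ∈ R0 | 0 < dg w x}`.
* Otherwise every `x` with `dg w0 x > 0` has `dg w0 x ≥ m/(4N)`, so `dg w0 x / (2 m0) ≥ 1/(8N) = g`. If `trace ≤ Q` take `R = R0`. Else `small_set` for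
  `w0` (`g⁻¹ = 8 N`) gives `S`, `U`; `S ⊆ R0`; `card S * m/(4N) ≤ ∑_S dg w0 ≤ 4 m/√U`, so `card S ≤ 16 N/√U`; `S` nonempty. Induction
  hypothesis for `R0 \ S`: `∑ ins R0 ≤ ∑ ins (R0 \ S) + ∑_{x ∈ S} dg w0 x` (an edge inside `R0` not inside `R0 \ S` has an end in `S`) and
  `∑_S dg w0 ≤ 64 U^(Γ-1) ∑ ins S`. The new family: `Fin.cons S` (the old sets are inside `R0 \ S`, hence disjoint from `S`).
Apply this to `R0 = univ`: `∑ ins univ = m`, `card {0 < dg} ≤ N`, so the middle term is `≤ m/4`.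
-/

set_option autoImplicit false

open Finset Matrix

namespace Pool.Agent.Lib.P325F

variable {V ι : Type} [Fintype V] [DecidableEq V] [Fintype ι] {s t : ι → V} {w : ι → ℝ}

namespace DecompAux

lemma ins_nonneg' (hw : ∀ e, 0 ≤ w e) (S : Finset V) (e : ι) : 0 ≤ ins s t w S e := by
  unfold ins
  split_ifs
  · exact hw e
  · exact le_rfl

lemma ins_le (hw : ∀ e, 0 ≤ w e) (S : Finset V) (e : ι) : ins s t w S e ≤ w e := by
  unfold ins
  split_ifs
  · exact le_rfl
  · exact hw e

lemma ins_ins {R S : Finset V} (h : S ⊆ R) : ins s t (ins s t w R) S = ins s t w S := by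
  funext e
  unfold ins
  by_cases h1 : s e ∈ S ∧ t e ∈ S
  · rw [if_pos h1, if_pos h1, if_pos ⟨h h1.1, h h1.2⟩]
  · rw [if_neg h1, if_neg h1]

lemma dg_mono {w' : ι → ℝ} (h : ∀ e, w' e ≤ w e) (x : V) : dg s t w' x ≤ dg s t w x := by
  unfold dg
  refine Finset.sum_le_sum fun e _ => mul_le_mul_of_nonneg_right (h e) ?_
  split_ifs <;> norm_num

lemma dg_ins_zero {R : Finset V} {x : V} (hx : x ∉ R) : dg s t (ins s t w R) x = 0 := by
  unfold dg
  refine Finset.sum_eq_zero fun e _ => ?_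
  unfold ins
  by_cases h1 : s e = x
  · rw [if_neg (fun h => hx (h1 ▸ h.1)), zero_mul]
  · by_cases h2 : t e = x
    · rw [if_neg (fun h => hx (h2 ▸ h.2)), zero_mul]
    · rw [if_neg h1, if_neg h2]
      ring

lemma sum_ins_sdiff (hw : ∀ e, 0 ≤ w e) (R T : Finset V) :
    ∑ e, ins s t w R e ≤ ∑ e, ins s t w (R \ T) e + ∑ x ∈ T, dg s t (ins s t w R) x := by
  have key : ∀ e, ins s t w R e ≤ ins s t w (R \ T) e +
      ∑ x ∈ T, ins s t w R e * ((if s e = x then 1 else 0) + (if t e = x then 1 else 0)) := by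
    intro e
    have hnn : ∀ x ∈ T, 0 ≤ ins s t w R e *
        ((if s e = x then (1 : ℝ) else 0) + (if t e = x then 1 else 0)) := by
      intro x _
      refine mul_nonneg (ins_nonneg' hw R e) ?_
      split_ifs <;> norm_num
    by_cases hR : s e ∈ R ∧ t e ∈ R
    · by_cases hs : s e ∈ T
      · have h1 := Finset.single_le_sum hnn hs
        have h2 : ins s t w R e ≤ ins s t w R e *
            ((if s e = s e then (1 : ℝ) else 0) + (if t e = s e then 1 else 0)) := by
          have h0 := ins_nonneg' (s := s) (t := t) hw R e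
          rw [if_pos rfl]
          split_ifs
          · linarith
          · linarith
        have h3 := ins_nonneg' (s := s) (t := t) hw (R \ T) e
        linarith
      · by_cases ht : t e ∈ T
        · have h1 := Finset.single_le_sum hnn ht
          have h2 : ins s t w R e ≤ ins s t w R e *
              ((if s e = t e then (1 : ℝ) else 0) + (if t e = t e then 1 else 0)) := by
            have h0 := ins_nonneg' (s := s) (t := t) hw R e
            rw [if_pos (rfl : t e = t e)]
            split_ifs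
            · linarith
            · linarith
          have h3 := ins_nonneg' (s := s) (t := t) hw (R \ T) e
          linarith
        · have h1 := Finset.sum_nonneg hnn
          have h2 : ins s t w R e = ins s t w (R \ T) e := by
            unfold ins
            rw [if_pos hR, if_pos ⟨Finset.mem_sdiff.2 ⟨hR.1, hs⟩, Finset.mem_sdiff.2 ⟨hR.2, ht⟩⟩]
          linarith
    · have h0 : ins s t w R e = 0 := by
        unfold ins
        rw [if_neg hR]
      have h1 := Finset.sum_nonneg hnn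
      have h3 := ins_nonneg' (s := s) (t := t) hw (R \ T) e
      linarith
  calc ∑ e, ins s t w R e ≤ ∑ e, (ins s t w (R \ T) e +
      ∑ x ∈ T, ins s t w R e * ((if s e = x then 1 else 0) + (if t e = x then 1 else 0))) :=
        Finset.sum_le_sum fun e _ => key e
    _ = _ := by
        rw [Finset.sum_add_distrib, Finset.sum_comm]
        rfl

/-- the inductive form of the decomposition -/
lemma decomp_aux (hw : ∀ e, 0 ≤ w e) {N Q Γ : ℝ} (hN1 : 1 ≤ N) {J : ℕ} (hJ : 0 < J)
    (hQ : 256 ≤ Q) (hΓ : 1 ≤ Γ) (hΓ2 : Γ ≤ 3 / 2)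
    (hΓQ : Real.log (8 * N) ≤ Γ ^ J * Real.log Q) (hm : 0 < ∑ e, w e) :
    ∀ (n : ℕ) (R0 : Finset V), R0.card = n →
    ∃ (R : Finset V) (k : ℕ) (S : Fin k → Finset V) (U : Fin k → ℝ),
      (∀ i, S i ⊆ R0) ∧
      (∀ i j, i ≠ j → Disjoint (S i) (S j)) ∧ (∀ i, Q < U i) ∧
      (∀ i, ((S i).card : ℝ) ≤ 16 * N / √(U i)) ∧
      (∑ e, ins s t w R e = 0 ∨ (MM s t (ins s t w R) ^ (2 * J)).trace ≤ Q) ∧
      ∑ e, ins s t w R0 e ≤ ∑ e, ins s t w R e +
        (∑ e, w e) / (4 * N) * ((R0.filter fun x => 0 < dg s t w x).card : ℝ) +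
        ∑ i, 64 * U i ^ (Γ - 1) * ∑ e, ins s t w (S i) e := by
  intro n
  induction n using Nat.strong_induction_on with
  | _ n ih =>
  intro R0 hR0
  set m : ℝ := ∑ e, w e with hmdef
  have hN0 : 0 < N := by linarith
  have hmN : 0 < m / (4 * N) := by positivity
  set w0 : ι → ℝ := ins s t w R0 with hw0def
  have hw0 : ∀ e, 0 ≤ w0 e := fun e => ins_nonneg' hw R0 e
  have hw0le : ∀ e, w0 e ≤ w e := fun e => ins_le hw R0 e
  have hm0le : ∑ e, w0 e ≤ m := Finset.sum_le_sum fun e _ => hw0le e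
  have hdgle : ∀ x, dg s t w0 x ≤ dg s t w x := fun x => dg_mono hw0le x
  have triv : (∑ e, ins s t w R0 e = 0 ∨ (MM s t (ins s t w R0) ^ (2 * J)).trace ≤ Q) →
      ∃ (R : Finset V) (k : ℕ) (S : Fin k → Finset V) (U : Fin k → ℝ),
      (∀ i, S i ⊆ R0) ∧
      (∀ i j, i ≠ j → Disjoint (S i) (S j)) ∧ (∀ i, Q < U i) ∧
      (∀ i, ((S i).card : ℝ) ≤ 16 * N / √(U i)) ∧
      (∑ e, ins s t w R e = 0 ∨ (MM s t (ins s t w R) ^ (2 * J)).trace ≤ Q) ∧
      ∑ e, ins s t w R0 e ≤ ∑ e, ins s t w R e +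
        m / (4 * N) * ((R0.filter fun x => 0 < dg s t w x).card : ℝ) +
        ∑ i, 64 * U i ^ (Γ - 1) * ∑ e, ins s t w (S i) e := by
    intro h
    refine ⟨R0, 0, fun i => i.elim0, fun i => i.elim0, fun i => i.elim0, fun i => i.elim0,
      fun i => i.elim0, fun i => i.elim0, h, ?_⟩
    have h1 : 0 ≤ m / (4 * N) * ((R0.filter fun x => 0 < dg s t w x).card : ℝ) := by positivity
    simp only [Finset.univ_eq_empty, Finset.sum_empty]
    linarith
  by_cases h0 : ∑ e, w0 e = 0
  · exact triv (Or.inl h0)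
  have hm0 : 0 < ∑ e, w0 e :=
    lt_of_le_of_ne (Finset.sum_nonneg fun e _ => hw0 e) (Ne.symm h0)
  by_cases hsm : ∃ x ∈ R0, 0 < dg s t w0 x ∧ dg s t w0 x < m / (4 * N)
  · obtain ⟨x, hxR, hx0, hx1⟩ := hsm
    have hcard : (R0 \ {x}).card < n := by
      rw [← hR0]
      exact Finset.card_lt_card (Finset.sdiff_ssubset (Finset.singleton_subset_iff.2 hxR)
        (Finset.singleton_nonempty x))
    obtain ⟨R, k, S, U, hS, hd, hU, hc, ht, hs⟩ := ih _ hcard (R0 \ {x}) rfl
    refine ⟨R, k, S, U, fun i => (hS i).trans Finset.sdiff_subset, hd, hU, hc, ht, ?_⟩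
    have h1 := sum_ins_sdiff (s := s) (t := t) hw R0 {x}
    rw [Finset.sum_singleton] at h1
    have hcd : ((R0 \ {x}).filter fun y => 0 < dg s t w y).card + 1 ≤
        (R0.filter fun y => 0 < dg s t w y).card := by
      have hsub : insert x ((R0 \ {x}).filter fun y => 0 < dg s t w y) ⊆
          R0.filter fun y => 0 < dg s t w y := by
        intro y hy
        rcases Finset.mem_insert.1 hy with rfl | hy
        · exact Finset.mem_filter.2 ⟨hxR, lt_of_lt_of_le hx0 (hdgle _)⟩
        · rw [Finset.mem_filter, Finset.mem_sdiff] at hy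
          exact Finset.mem_filter.2 ⟨hy.1.1, hy.2⟩
      have := Finset.card_le_card hsub
      rwa [Finset.card_insert_of_notMem (by simp)] at this
    have hcd' : (((R0 \ {x}).filter fun y => 0 < dg s t w y).card : ℝ) + 1 ≤
        ((R0.filter fun y => 0 < dg s t w y).card : ℝ) := by exact_mod_cast hcd
    have h2 := mul_le_mul_of_nonneg_left hcd' hmN.le
    rw [mul_add, mul_one] at h2
    linarith
  · push Not at hsm
    by_cases htr : (MM s t w0 ^ (2 * J)).trace ≤ Q
    · exact triv (Or.inr htr)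
    push Not at htr
    have hmin : ∀ x, 0 < dg s t w0 x → (8 * N)⁻¹ ≤ dg s t w0 x / (2 * ∑ e, w0 e) := by
      intro x hx
      have hxR : x ∈ R0 := by
        by_contra hxn
        rw [dg_ins_zero hxn] at hx
        exact lt_irrefl _ hx
      have h1 := hsm x hxR hx
      rw [le_div_iff₀ (by positivity)]
      have h2 : (8 * N)⁻¹ * (2 * ∑ e, w0 e) ≤ (8 * N)⁻¹ * (2 * m) := by
        refine mul_le_mul_of_nonneg_left ?_ (by positivity)
        linarith
      have h3 : (8 * N)⁻¹ * (2 * m) = m / (4 * N) := by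
        field_simp
        ring
      linarith
    obtain ⟨T, u, hu, hT0, hTpos, hT1, hT2⟩ := small_set (s := s) (t := t) hw0 hm0
      (g := (8 * N)⁻¹) (by positivity) hmin hJ hQ hΓ hΓ2 (by rwa [inv_inv]) htr
    have hu0 : 0 < u := by linarith
    have hsu : 0 < √u := Real.sqrt_pos.2 hu0
    have hTR : T ⊆ R0 := by
      intro x hx
      by_contra hxn
      have := hT0 x hx
      rw [dg_ins_zero hxn] at this
      exact lt_irrefl _ this
    have hTne : T.Nonempty := by
      by_contra hne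
      rw [Finset.not_nonempty_iff_eq_empty] at hne
      rw [hne, Finset.sum_empty] at hTpos
      exact lt_irrefl _ hTpos
    rw [ins_ins hTR] at hT2
    have hcT : (T.card : ℝ) ≤ 16 * N / √u := by
      have h1 : (T.card : ℝ) * (m / (4 * N)) ≤ ∑ x ∈ T, dg s t w0 x := by
        rw [← nsmul_eq_mul]
        exact Finset.card_nsmul_le_sum T _ _ fun x hx => hsm x (hTR hx) (hT0 x hx)
      have h2 : 4 * (∑ e, w0 e) / √u ≤ 4 * m / √u := by
        apply div_le_div_of_nonneg_right _ hsu.le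
        linarith
      have h3 : (T.card : ℝ) * (m / (4 * N)) ≤ 4 * m / √u := by linarith
      rw [le_div_iff₀ hsu] at h3 ⊢
      have h4 : (T.card : ℝ) * (m / (4 * N)) * √u = (T.card * √u) * (m / (4 * N)) := by ring
      rw [h4] at h3
      have h5 : 4 * m = (16 * N) * (m / (4 * N)) := by
        field_simp
        ring
      rw [h5] at h3
      exact le_of_mul_le_mul_right h3 hmN
    have hcard : (R0 \ T).card < n := by
      rw [← hR0]
      exact Finset.card_lt_card (Finset.sdiff_ssubset hTR hTne)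
    obtain ⟨R, k, S, U, hS, hd, hU, hc, ht, hs⟩ := ih _ hcard (R0 \ T) rfl
    have hdT : ∀ i, Disjoint T (S i) := fun i =>
      (Finset.disjoint_sdiff).mono_right (hS i)
    refine ⟨R, k + 1, Fin.cons T S, Fin.cons u U, ?_, ?_, ?_, ?_, ht, ?_⟩
    · intro i
      refine Fin.cases ?_ (fun j => ?_) i
      · simpa using hTR
      · simpa using (hS j).trans Finset.sdiff_subset
    · intro i j
      refine Fin.cases ?_ (fun i' => ?_) i
      · refine Fin.cases ?_ (fun j' => ?_) j
        · intro h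
          exact absurd rfl h
        · intro _
          simpa using hdT j'
      · refine Fin.cases ?_ (fun j' => ?_) j
        · intro _
          simpa using (hdT i').symm
        · intro h
          have : i' ≠ j' := fun h' => h (by rw [h'])
          simpa using hd i' j' this
    · intro i
      refine Fin.cases ?_ (fun j => ?_) i
      · simpa using hu
      · simpa using hU j
    · intro i
      refine Fin.cases ?_ (fun j => ?_) i
      · simpa using hcT
      · simpa using hc j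
    · have h1 := sum_ins_sdiff (s := s) (t := t) hw R0 T
      have hcd : ((R0 \ T).filter fun y => 0 < dg s t w y).card ≤
          (R0.filter fun y => 0 < dg s t w y).card :=
        Finset.card_le_card (Finset.filter_subset_filter _ Finset.sdiff_subset)
      have hcd' : (((R0 \ T).filter fun y => 0 < dg s t w y).card : ℝ) ≤
          ((R0.filter fun y => 0 < dg s t w y).card : ℝ) := by exact_mod_cast hcd
      have h2 := mul_le_mul_of_nonneg_left hcd' hmN.le
      rw [Fin.sum_univ_succ]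
      simp only [Fin.cons_zero, Fin.cons_succ]
      linarith

end DecompAux

open DecompAux

theorem decomp (hw : ∀ e, 0 ≤ w e) {N Q Γ : ℝ} (hN1 : 1 ≤ N)
    (hN : ((univ.filter fun x => 0 < dg s t w x).card : ℝ) ≤ N) {J : ℕ} (hJ : 0 < J)
    (hQ : 256 ≤ Q) (hΓ : 1 ≤ Γ) (hΓ2 : Γ ≤ 3 / 2)
    (hΓQ : Real.log (8 * N) ≤ Γ ^ J * Real.log Q) :
    ∃ (R : Finset V) (k : ℕ) (S : Fin k → Finset V) (U : Fin k → ℝ),
      (∀ i j, i ≠ j → Disjoint (S i) (S j)) ∧ (∀ i, Q < U i) ∧
      (∀ i, ((S i).card : ℝ) ≤ 16 * N / √(U i)) ∧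
      (∑ e, ins s t w R e = 0 ∨ (MM s t (ins s t w R) ^ (2 * J)).trace ≤ Q) ∧
      ∑ e, w e ≤ ∑ e, ins s t w R e + (∑ e, w e) / 4 +
        ∑ i, 64 * U i ^ (Γ - 1) * ∑ e, ins s t w (S i) e := by
  have huniv : ins s t w univ = w := by
    funext e
    unfold ins
    rw [if_pos ⟨Finset.mem_univ _, Finset.mem_univ _⟩]
  by_cases h0 : ∑ e, w e = 0
  · refine ⟨univ, 0, fun i => i.elim0, fun i => i.elim0, fun i => i.elim0, fun i => i.elim0,
      fun i => i.elim0, Or.inl (by rw [huniv, h0]), ?_⟩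
    rw [huniv, h0]
    simp
  have hm : 0 < ∑ e, w e := lt_of_le_of_ne (Finset.sum_nonneg fun e _ => hw e) (Ne.symm h0)
  obtain ⟨R, k, S, U, -, hd, hU, hc, ht, hs⟩ :=
    decomp_aux (s := s) (t := t) hw hN1 hJ hQ hΓ hΓ2 hΓQ hm _ univ rfl
  refine ⟨R, k, S, U, hd, hU, hc, ht, ?_⟩
  rw [huniv] at hs
  have hN0 : 0 < N := by linarith
  have h1 : (∑ e, w e) / (4 * N) * ((univ.filter fun x => 0 < dg s t w x).card : ℝ) ≤
      (∑ e, w e) / 4 := by
    have h2 : (∑ e, w e) / (4 * N) * ((univ.filter fun x => 0 < dg s t w x).card : ℝ) ≤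
        (∑ e, w e) / (4 * N) * N := mul_le_mul_of_nonneg_left hN (by positivity)
    have h3 : (∑ e, w e) / (4 * N) * N = (∑ e, w e) / 4 := by
      field_simp
    linarith
  linarith

end Pool.Agent.Lib.P325F
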