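import Mathlib

/-!
# Weighted multigraphs: degrees, normalised adjacency matrix, restriction to a vertex set

`s t : ι → V` are the ends of the edges, `w : ι → ℝ` nonnegative weights.
-/

set_option autoImplicit false

open Finset

namespace Pool.Agent.Lib.P325F

variable {V ι : Type} [Fintype V] [DecidableEq V] [Fintype ι]

/-- weighted degree -/
noncomputable def dg (s t : ι → V) (w : ι → ℝ) (x : V) : ℝ :=
  ∑ e, w e * ((if s e = x then 1 else 0) + (if t e = x then 1 else 0))

/-- weighted adjacency -/
noncomputable def aj (s t : ι → V) (w : ι → ℝ) (x y : V) : ℝ :=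
  ∑ e, w e * ((if s e = x ∧ t e = y then 1 else 0) + (if s e = y ∧ t e = x then 1 else 0))

/-- normalised adjacency matrix (rows of isolated vertices are zero) -/
noncomputable def MM (s t : ι → V) (w : ι → ℝ) : Matrix V V ℝ :=
  fun x y => aj s t w x y / (√(dg s t w x) * √(dg s t w y))

/-- restriction of the weights to the edges inside a set of vertices -/
noncomputable def ins (s t : ι → V) (w : ι → ℝ) (S : Finset V) (e : ι) : ℝ :=
  if s e ∈ S ∧ t e ∈ S then w e else 0

/-- the edge `e` is satisfied by the labelling `x` -/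
def Good {L : Type} (s t : ι → V) (perm : ι → Equiv.Perm L) (x : V → L) (e : ι) : Prop :=
  perm e (x (s e)) = x (t e)

open Classical in
/-- the weight of the edges satisfied by the labelling `x` -/
noncomputable def sat {L : Type} (s t : ι → V) (perm : ι → Equiv.Perm L) (w : ι → ℝ)
    (x : V → L) : ℝ := ∑ e, if Good s t perm x e then w e else 0

/-- weights whose graph has few closed walks of length `2 J` have good labellings -/
def SOS {L : Type} (s t : ι → V) (perm : ι → Equiv.Perm L) (f : ι → ℝ) (J : ℕ) (Q τ : ℝ) : Prop :=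
  ∀ w : ι → ℝ, (∀ e, 0 ≤ w e) → (MM s t w ^ (2 * J)).trace ≤ Q →
    ∃ x : V → L, ∑ e, w e * f e - τ * ∑ e, w e ≤ sat s t perm w x

end Pool.Agent.Lib.P325F
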