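import Pool.Agent.Lib.P325F.Defs

/-!
# Module Param (2 h): the parameters

Put `A = log (4/s0) ≥ log 4 > 1.38`, `B = log (4/β) ≥ log 4`, `ℓ = log n`. The hypothesis `hn` says `ℓ ≥ 32 A B / β`; `δ = exp (-100 A B / β)`.
`b = β/2`, `Q = n^b`, `log Q = β ℓ/2 ≥ 16 A B ≥ 16 * 1.38^2 > 30`, so `Q ≥ exp 12 > 65536` (`exp 1 > 2.7182818283`). `ℓ ≥ 3` so `n ≥ 8`.
Let `q` be the largest natural number with `2 * 2^q * A ≤ β ℓ / 2` (`q = 0` qualifies, `Nat.findGreatest` or an unboundedness argument), `J = 2^q`: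
`(4/s0)^(2J) ≤ n^b`, so `Q (4/s0)^(2J) ≤ n^(2b) = n^β`; and `4 J A > β ℓ/2`, that is `1/J < 8 A/(β ℓ)`.
`Γ = exp y`, `y = B/J < 8 A B/(β ℓ) ≤ 1/4`. `1 ≤ Γ ≤ 3/2` (`exp y ≤ 1/(1-y) ≤ 4/3`), `Γ - 1 ≤ y/(1-y) ≤ 4/3 y ≤ 2 y`.
`Γ^J = exp B = 4/β`; `Γ^J log Q = (4/β) (β/2) ℓ = 2 ℓ ≥ log (8 n)` as `n ≥ 8`.
`p = 4 (Γ-1) + 20/log Q`; `p ℓ ≤ 8 y ℓ + 40/β ≤ 64 A B/β + 40/β`, and `s0^2/32 * n^(-p) = exp (-(log (32/s0^2)) - p ℓ)`, `log (32/s0^2) = 2 A + log 2 ≤ 5/2 A`.
So it is enough that `5/2 A + 64 A B/β + 40/β ≤ 100 A B/β`: `5/2 A ≤ 2 A B ≤ 2 A B/β` (`B ≥ 1.38`), `40/β ≤ 21.1 A B/β` (`A B ≥ 1.38^2 > 1.9`). Total `< 88 A B/β`.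
-/

set_option autoImplicit false

open Finset Matrix

namespace Pool.Agent.Lib.P325F

theorem params {s0 β : ℝ} (hs0 : 0 < s0) (hs1 : s0 ≤ 1) (hβ : 0 < β) (hβ1 : β ≤ 1) {n : ℝ}
    (hn : (4 / s0) ^ (32 / β * Real.log (4 / β)) ≤ n) :
    ∃ (q : ℕ) (Γ p : ℝ), 65536 ≤ n ^ (β / 2) ∧ 1 ≤ Γ ∧ Γ ≤ 3 / 2 ∧
      Real.log (8 * n) ≤ Γ ^ (2 ^ q) * Real.log (n ^ (β / 2)) ∧
      4 * (Γ - 1) + 20 / Real.log (n ^ (β / 2)) ≤ p ∧
      n ^ (β / 2) * (4 / s0) ^ (2 * 2 ^ q) ≤ n ^ β ∧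
      (s0 / 4) ^ (100 / β * Real.log (4 / β)) ≤ s0 ^ 2 / 32 * n ^ (-p) := by
  have hlog2 := Real.log_two_gt_d9
  have hlog2' := Real.log_two_lt_d9
  have hlog4 : Real.log 4 = 2 * Real.log 2 := by
    rw [show (4 : ℝ) = 2 ^ 2 by norm_num, Real.log_pow]
    norm_num
  have h4s : 0 < 4 / s0 := by positivity
  have h4b : 0 < 4 / β := by positivity
  obtain ⟨A, hA⟩ : ∃ A, A = Real.log (4 / s0) := ⟨_, rfl⟩
  obtain ⟨B, hB⟩ : ∃ B, B = Real.log (4 / β) := ⟨_, rfl⟩
  have hA1 : 1.38 ≤ A := by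
    have h1 : Real.log 4 ≤ Real.log (4 / s0) := by
      apply Real.log_le_log (by norm_num)
      rw [le_div_iff₀ hs0]
      linarith
    rw [hA]
    linarith
  have hB1 : 1.38 ≤ B := by
    have h1 : Real.log 4 ≤ Real.log (4 / β) := by
      apply Real.log_le_log (by norm_num)
      rw [le_div_iff₀ hβ]
      linarith
    rw [hB]
    linarith
  have hexpA : Real.exp A = 4 / s0 := by rw [hA, Real.exp_log h4s]
  have hexpB : Real.exp B = 4 / β := by rw [hB, Real.exp_log h4b]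
  have hn0 : 0 < n := lt_of_lt_of_le (Real.rpow_pos_of_pos h4s _) hn
  obtain ⟨l, hl⟩ : ∃ l, l = Real.log n := ⟨_, rfl⟩
  have hexpl : Real.exp l = n := by rw [hl, Real.exp_log hn0]
  have hl1 : 32 * (A * B) / β ≤ l := by
    have h1 := Real.log_le_log (Real.rpow_pos_of_pos h4s _) hn
    rw [Real.log_rpow h4s, ← hA, ← hB, ← hl] at h1
    refine le_trans (le_of_eq ?_) h1
    ring
  have hAB : 1.9 ≤ A * B := by nlinarith
  have hbl : 32 * (A * B) ≤ β * l := by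
    rw [div_le_iff₀ hβ] at hl1
    linarith
  have hl0 : 60 ≤ l := by nlinarith
  have hA0 : 0 < A := by linarith
  have hB0 : 0 < B := by linarith
  -- the number q
  have hx : 1 ≤ β * l / (4 * A) := by
    rw [le_div_iff₀ (by positivity)]
    nlinarith
  obtain ⟨q, hq1, hq2⟩ := exists_nat_pow_near hx (by norm_num : (1 : ℝ) < 2)
  obtain ⟨J, hJ⟩ : ∃ J : ℝ, J = (2 : ℝ) ^ q := ⟨_, rfl⟩
  have hJ0 : 0 < J := by rw [hJ]; positivity
  rw [pow_succ, ← hJ] at hq2
  rw [← hJ] at hq1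
  have hq1' : 4 * A * J ≤ β * l := by
    rw [le_div_iff₀ (by positivity)] at hq1
    linarith
  have hq2' : β * l < 8 * A * J := by
    rw [div_lt_iff₀ (by positivity)] at hq2
    linarith
  obtain ⟨y, hy⟩ : ∃ y, y = B / J := ⟨_, rfl⟩
  have hyJ : y * J = B := by rw [hy]; field_simp
  have hy0 : 0 < y := by rw [hy]; positivity
  have hy4 : y ≤ 1 / 4 := by
    rw [hy, div_le_iff₀ hJ0]
    nlinarith
  have hyl : y * (β * l) ≤ 8 * (A * B) := by
    calc y * (β * l) ≤ y * (8 * A * J) := mul_le_mul_of_nonneg_left hq2'.le hy0.le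
      _ = 8 * A * (y * J) := by ring
      _ = 8 * (A * B) := by rw [hyJ]; ring
  have hE1 : 1 ≤ Real.exp y := Real.one_le_exp hy0.le
  have hE2 : (1 - y) * Real.exp y ≤ 1 := by
    have h1 : 1 - y ≤ Real.exp (-y) := Real.one_sub_le_exp_neg y
    calc (1 - y) * Real.exp y ≤ Real.exp (-y) * Real.exp y :=
          mul_le_mul_of_nonneg_right h1 (Real.exp_pos _).le
      _ = 1 := by rw [← Real.exp_add]; simp
  have hE3 : Real.exp y ≤ 4 / 3 := by nlinarith
  have hE4 : Real.exp y - 1 ≤ 4 / 3 * y := by nlinarith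
  have hnb : n ^ (β / 2) = Real.exp (β * l / 2) := by
    rw [Real.rpow_def_of_pos hn0, ← hl]
    congr 1
    ring
  have hlognb : Real.log (n ^ (β / 2)) = β * l / 2 := by rw [hnb, Real.log_exp]
  refine ⟨q, Real.exp y, 4 * (Real.exp y - 1) + 20 / Real.log (n ^ (β / 2)), ?_, hE1,
    by linarith, ?_, le_rfl, ?_, ?_⟩
  · rw [hnb]
    have h1 : (65536 : ℝ) = Real.exp (16 * Real.log 2) := by
      rw [show (16 : ℝ) * Real.log 2 = ((16 : ℕ) : ℝ) * Real.log 2 by norm_num, Real.exp_nat_mul,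
        Real.exp_log (by norm_num)]
      norm_num
    rw [h1]
    apply Real.exp_le_exp.2
    nlinarith
  · rw [hlognb, ← Real.exp_nat_mul]
    have h1 : (((2 ^ q : ℕ) : ℕ) : ℝ) * y = B := by
      push_cast
      rw [← hJ, mul_comm, hyJ]
    rw [h1, hexpB, Real.log_mul (by norm_num) hn0.ne', ← hl]
    have h2 : Real.log 8 = 3 * Real.log 2 := by
      rw [show (8 : ℝ) = 2 ^ 3 by norm_num, Real.log_pow]
      norm_num
    have h3 : 4 / β * (β * l / 2) = 2 * l := by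
      field_simp
      ring
    rw [h2, h3]
    linarith
  · have h1 : (4 / s0) ^ (2 * 2 ^ q) = Real.exp (2 * J * A) := by
      rw [← hexpA, ← Real.exp_nat_mul]
      congr 1
      push_cast
      rw [← hJ]
    have h2 : n ^ β = Real.exp (β * l) := by
      rw [Real.rpow_def_of_pos hn0, ← hl]
      congr 1
      ring
    rw [hnb, h1, h2, ← Real.exp_add]
    apply Real.exp_le_exp.2
    linarith
  · rw [hlognb]
    have h1 : (s0 / 4) ^ (100 / β * Real.log (4 / β)) = Real.exp (-(100 * (A * B) / β)) := by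
      rw [Real.rpow_def_of_pos (by positivity), ← hB]
      congr 1
      have h2 : Real.log (s0 / 4) = -A := by
        rw [hA, ← Real.log_inv]
        congr 1
        rw [inv_div]
      rw [h2]
      ring
    have h2 : s0 ^ 2 / 32 = Real.exp (-(2 * A + Real.log 2)) := by
      have h3 : Real.exp (2 * A + Real.log 2) = 32 / s0 ^ 2 := by
        rw [Real.exp_add, Real.exp_log (by norm_num : (0 : ℝ) < 2),
          show (2 : ℝ) * A = ((2 : ℕ) : ℝ) * A by norm_num, Real.exp_nat_mul, hexpA]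
        field_simp
        norm_num
      rw [Real.exp_neg, h3, inv_div]
    have h3 : ∀ p : ℝ, n ^ (-p) = Real.exp (-(l * p)) := by
      intro p
      rw [Real.rpow_def_of_pos hn0, ← hl]
      congr 1
      ring
    rw [h1, h2, h3, ← Real.exp_add]
    apply Real.exp_le_exp.2
    have h4 : l * (4 * (Real.exp y - 1) + 20 / (β * l / 2)) =
        4 * (l * (Real.exp y - 1)) + 40 / β := by
      have : l ≠ 0 := by linarith
      field_simp
      ring
    rw [h4]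
    have h5 : l * (Real.exp y - 1) ≤ 32 / 3 * (A * B) / β := by
      rw [le_div_iff₀ hβ]
      calc l * (Real.exp y - 1) * β ≤ l * (4 / 3 * y) * β := by
            apply mul_le_mul_of_nonneg_right _ hβ.le
            exact mul_le_mul_of_nonneg_left hE4 (by linarith)
        _ = 4 / 3 * (y * (β * l)) := by ring
        _ ≤ 4 / 3 * (8 * (A * B)) := by linarith
        _ = 32 / 3 * (A * B) := by ring
    have h6 : 40 / β ≤ 22 * (A * B) / β := by
      apply div_le_div_of_nonneg_right _ hβ.le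
      linarith
    have h7 : 2 * A + Real.log 2 ≤ 2 * (A * B) / β := by
      rw [le_div_iff₀ hβ]
      have h8 : 2 * A + Real.log 2 ≤ 2 * (A * B) := by nlinarith
      have h9 : (2 * A + Real.log 2) * β ≤ (2 * A + Real.log 2) * 1 :=
        mul_le_mul_of_nonneg_left hβ1 (by linarith)
      linarith
    have h8 : 2 * (A * B) / β + (4 * (32 / 3 * (A * B) / β) + 22 * (A * B) / β) ≤
        100 * (A * B) / β := by
      have h9 : 2 * (A * B) / β + (4 * (32 / 3 * (A * B) / β) + 22 * (A * B) / β) =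
          (24 + 128 / 3) * (A * B) / β := by ring
      rw [h9]
      apply div_le_div_of_nonneg_right _ hβ.le
      linarith
    linarith

end Pool.Agent.Lib.P325F
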