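import Pool.Agent.Lib.P325F.Rec
import Pool.Agent.Lib.P325F.Param

/-!
# Module Final (2 h): assembly

`trace_two`: `M^2 x x = (M e_x) ⬝ᵥ (M e_x) ≤ e_x ⬝ᵥ e_x = 1` (`contr`, `MM_transpose`).
`final`: `n = card V`, `m = card ι`, `δ = (s0/4)^(100/β * log (4/β))`. `m = 0`: any labelling. `V` is nonempty if `m > 0`, so `n ≥ 1`. Put `Z = 4/s0 ≥ 4`,
`x = log (4/β)/β ≥ log 4 ≥ 1.38`, `δ⁻¹ = Z^(100 x)`.
* `n < Z^(32 x)`: `h 0 n (s0/2)`: `n * (s0/2)⁻¹^2 + 4 = n Z^2/4 + 4 ≤ Z^(32 x + 2) ≤ Z^(100 x) ≤ D`. So `SOS 1 n (s0/2)`; apply it to `w = 1`, `trace_two`: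
  `sat 1 x ≥ ∑ f - (s0/2) m ≥ (s0/2) m ≥ δ m` (`δ ≤ (s0/4)^1`, exponent `≥ 1`).
* `n ≥ Z^(32 x)`: take `q, Γ, p` from `params`, `Q = n^(β/2)`, `τ = s0/4`, `σ = s0/2`, `J = 2^q`: `Q τ⁻¹^(2J) + 4 ≤ n^β + 4 ≤ D` as `D ≥ n^β/δ ≥ 5 n^β` (`δ ≤ 1/5`: `Z^(100x) ≥ 4^2`).
  `w = 1` where `f e ≥ s0/2`, `0` elsewhere: `∑ w ≥ ∑ w f ≥ ∑ f - (s0/2) m ≥ (s0/2) m`. `rec_bound` with `N = card V`: `x` with
  `sat 1 x ≥ sat w x ≥ (s0/16) n^(-p) ∑ w ≥ (s0^2/32) n^(-p) m ≥ δ m`.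
-/

set_option autoImplicit false

open Finset Matrix

namespace Pool.Agent.Lib.P325F

variable {V ι : Type} [Fintype V] [DecidableEq V] [Fintype ι] {s t : ι → V}

theorem trace_two {w : ι → ℝ} (hw : ∀ e, 0 ≤ w e) :
    (MM s t w ^ 2).trace ≤ Fintype.card V := by
  rw [pow_two, Matrix.trace]
  have h1 : ∀ x, (MM s t w * MM s t w).diag x ≤ 1 := by
    intro x
    have h2 : (MM s t w * MM s t w).diag x =
        (MM s t w *ᵥ Pi.single x 1) ⬝ᵥ (MM s t w *ᵥ Pi.single x 1) := by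
      rw [Matrix.diag_apply, Matrix.mul_apply, dotProduct]
      refine Finset.sum_congr rfl fun y _ => ?_
      rw [Matrix.mulVec_single_one]
      have h3 : MM s t w x y = MM s t w y x := by
        conv_lhs => rw [← MM_transpose (s := s) (t := t) (w := w)]
        rfl
      rw [h3]
      rfl
    rw [h2]
    refine (contr hw _).trans ?_
    rw [single_one_dotProduct, Pi.single_eq_same]
  calc ∑ x, (MM s t w * MM s t w).diag x ≤ ∑ _x : V, (1 : ℝ) :=
        Finset.sum_le_sum fun x _ => h1 x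
    _ = Fintype.card V := by
        rw [Finset.sum_const, Finset.card_univ, nsmul_eq_mul, mul_one]

theorem final {L : Type} (hL : Nonempty (V → L)) (perm : ι → Equiv.Perm L) {f : ι → ℝ}
    (hf0 : ∀ e, 0 ≤ f e) (hf1 : ∀ e, f e ≤ 1) {s0 β D : ℝ} (hs0 : 0 < s0) (hs1 : s0 ≤ 1)
    (hβ : 0 < β) (hβ1 : β ≤ 1)
    (hD : (Fintype.card V : ℝ) ^ β / (s0 / 4) ^ (100 / β * Real.log (4 / β)) ≤ D)
    (h : ∀ (q : ℕ) (Q τ : ℝ), 1 ≤ Q → 0 < τ → Q * τ⁻¹ ^ (2 * 2 ^ q) + 4 ≤ D →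
      SOS s t perm f (2 ^ q) Q τ)
    (hval : s0 * Fintype.card ι ≤ ∑ e, f e) :
    ∃ x : V → L, (s0 / 4) ^ (100 / β * Real.log (4 / β)) * Fintype.card ι ≤
      sat s t perm (fun _ => 1) x := by
  classical
  rcases Nat.eq_zero_or_pos (Fintype.card ι) with hm | hm
  · obtain ⟨x⟩ := hL
    refine ⟨x, ?_⟩
    rw [hm, Nat.cast_zero, mul_zero]
    exact sat_nonneg perm (fun _ => zero_le_one) x
  have hι : Nonempty ι := Fintype.card_pos_iff.mp hm
  obtain ⟨e0⟩ := hι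
  have hV : Nonempty V := ⟨s e0⟩
  have hn1 : (1 : ℝ) ≤ Fintype.card V := by
    exact_mod_cast Fintype.card_pos_iff.mpr hV
  have hm0 : (0 : ℝ) ≤ Fintype.card ι := Nat.cast_nonneg _
  set n : ℝ := ((Fintype.card V : ℕ) : ℝ) with hn
  set X : ℝ := 1 / β * Real.log (4 / β) with hX
  have hlog4 : (1.38 : ℝ) ≤ Real.log 4 := by
    have h2 : Real.log 4 = 2 * Real.log 2 := by
      rw [show (4 : ℝ) = 2 ^ 2 by norm_num, Real.log_pow]; norm_num
    have := Real.log_two_gt_d9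
    rw [h2]; linarith
  have hlogβ : Real.log 4 ≤ Real.log (4 / β) := by
    apply Real.log_le_log (by norm_num)
    rw [le_div_iff₀ hβ]; nlinarith
  have hX1 : (1.38 : ℝ) ≤ X := by
    have h1 : (1 : ℝ) ≤ 1 / β := by rw [le_div_iff₀ hβ]; linarith
    have h2 : (1.38 : ℝ) ≤ Real.log (4 / β) := hlog4.trans hlogβ
    rw [hX]
    nlinarith
  have e100 : 100 / β * Real.log (4 / β) = 100 * X := by rw [hX]; ring
  have e32 : 32 / β * Real.log (4 / β) = 32 * X := by rw [hX]; ring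
  rw [e100] at hD
  rw [e100]
  have hs4 : 0 < s0 / 4 := by positivity
  have hs4' : s0 / 4 ≤ 1 := by linarith
  set Z : ℝ := 4 / s0 with hZ
  have hZ4 : 4 ≤ Z := by rw [hZ, le_div_iff₀ hs0]; nlinarith
  have hZ0 : 0 < Z := by linarith
  have hZ1 : 1 ≤ Z := by linarith
  have hZinv : s0 / 4 = Z⁻¹ := by rw [hZ, inv_div]
  set δ : ℝ := (s0 / 4) ^ (100 * X) with hδ
  have hδ0 : 0 < δ := Real.rpow_pos_of_pos hs4 _
  have hδZ : δ⁻¹ = Z ^ (100 * X) := by
    rw [hδ, hZinv, Real.inv_rpow hZ0.le, inv_inv]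
  have hnβ1 : 1 ≤ n ^ β := Real.one_le_rpow hn1 hβ.le
  have hZ16 : 16 ≤ Z ^ (100 * X) := by
    calc (16 : ℝ) ≤ Z ^ (2 : ℝ) := by
          rw [Real.rpow_two]; nlinarith
      _ ≤ Z ^ (100 * X) := Real.rpow_le_rpow_of_exponent_le hZ1 (by linarith)
  have hD1 : n ^ β * Z ^ (100 * X) ≤ D := by
    rw [← hδZ, ← div_eq_mul_inv]; exact hD
  have hZp : 0 < Z ^ (100 * X) := Real.rpow_pos_of_pos hZ0 _
  have hsum1 : ∑ _e : ι, (1 : ℝ) = Fintype.card ι := by
    rw [Finset.sum_const, Finset.card_univ, nsmul_eq_mul, mul_one]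
  by_cases hcase : n < Z ^ (32 * X)
  · have hDn : n * (s0 / 2)⁻¹ ^ (2 * 2 ^ 0) + 4 ≤ D := by
      have e1 : (s0 / 2)⁻¹ = Z / 2 := by rw [hZ]; field_simp; norm_num
      rw [e1]
      have e2 : (Z / 2) ^ (2 * 2 ^ 0) = Z ^ 2 / 4 := by
        norm_num; ring
      rw [e2]
      have e3 : Z ^ (32 * X + 2) = Z ^ (32 * X) * Z ^ 2 := by
        rw [Real.rpow_add hZ0, Real.rpow_two]
      have e4 : Z ^ (32 * X + 2) ≤ Z ^ (100 * X) :=
        Real.rpow_le_rpow_of_exponent_le hZ1 (by linarith)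
      have hZ2 : (16 : ℝ) ≤ Z ^ 2 := by nlinarith
      have hZ32 : 1 ≤ Z ^ (32 * X) := Real.one_le_rpow hZ1 (by linarith)
      have e5 : Z ^ (100 * X) ≤ D := by
        refine le_trans ?_ hD1
        nlinarith
      have e6 : n * (Z ^ 2 / 4) ≤ Z ^ (32 * X) * (Z ^ 2 / 4) :=
        mul_le_mul_of_nonneg_right hcase.le (by positivity)
      have e7 : 16 ≤ Z ^ (32 * X) * Z ^ 2 := by nlinarith
      nlinarith
    have hSOS := h 0 n (s0 / 2) hn1 (by positivity) hDn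
    obtain ⟨x, hx⟩ := hSOS (fun _ => 1) (fun _ => zero_le_one) (by
      have := trace_two (s := s) (t := t) (w := fun _ => (1 : ℝ)) (fun _ => zero_le_one)
      simpa using this)
    refine ⟨x, le_trans ?_ hx⟩
    simp only [one_mul, hsum1]
    have hδs : δ ≤ s0 / 4 := by
      rw [hδ]
      calc (s0 / 4) ^ (100 * X) ≤ (s0 / 4) ^ (1 : ℝ) :=
            Real.rpow_le_rpow_of_exponent_ge hs4 hs4' (by linarith)
        _ = s0 / 4 := Real.rpow_one _
    have : δ * (Fintype.card ι : ℝ) ≤ s0 / 2 * Fintype.card ι :=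
      mul_le_mul_of_nonneg_right (by linarith) hm0
    linarith
  · push Not at hcase
    have hcase' : (4 / s0) ^ (32 / β * Real.log (4 / β)) ≤ n := by rw [e32]; exact hcase
    obtain ⟨q, Γ, p, h1, h2, h3, h4, h5, h6, h7⟩ := params hs0 hs1 hβ hβ1 hcase'
    rw [e100] at h7
    set w : ι → ℝ := fun e => if s0 / 2 ≤ f e then 1 else 0 with hw
    have hw0 : ∀ e, 0 ≤ w e := by
      intro e; simp only [hw]; split_ifs <;> norm_num
    have hw1 : ∀ e, w e ≤ 1 := by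
      intro e; simp only [hw]; split_ifs <;> norm_num
    have hSOS := h q (n ^ (β / 2)) (s0 / 4) (by linarith) hs4 (by
      have e1 : (s0 / 4)⁻¹ = 4 / s0 := by rw [inv_div]
      rw [e1]
      nlinarith)
    have hN1 : 1 ≤ Fintype.card V := Fintype.card_pos_iff.mpr hV
    obtain ⟨x, hx⟩ := rec_bound hL perm (by positivity) h1 h2 h3 h5
      (by positivity : (0 : ℝ) < s0 / 2) (by linarith) hSOS (Fintype.card V) hN1 h4 w hw0 (by
        intro e he
        by_contra hlt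
        exact he (by simp only [hw]; rw [if_neg hlt])) (Finset.card_le_univ _)
    refine ⟨x, ?_⟩
    have hsat : sat s t perm w x ≤ sat s t perm (fun _ => 1) x := sat_mono perm hw1 x
    have hsw : s0 / 2 * Fintype.card ι ≤ ∑ e, w e := by
      have : ∑ e, (f e - s0 / 2) ≤ ∑ e, w e := by
        refine Finset.sum_le_sum fun e _ => ?_
        simp only [hw]
        split_ifs with hc
        · linarith [hf1 e]
        · push Not at hc; linarith
      rw [Finset.sum_sub_distrib, Finset.sum_const, Finset.card_univ, nsmul_eq_mul] at this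
      linarith
    have hnp : 0 < n ^ (-p) := Real.rpow_pos_of_pos (by linarith) _
    calc δ * (Fintype.card ι : ℝ) ≤ (s0 ^ 2 / 32 * n ^ (-p)) * Fintype.card ι :=
          mul_le_mul_of_nonneg_right h7 hm0
      _ = s0 / 2 / 8 * n ^ (-p) * (s0 / 2 * Fintype.card ι) := by ring
      _ ≤ s0 / 2 / 8 * n ^ (-p) * ∑ e, w e :=
          mul_le_mul_of_nonneg_left hsw (by positivity)
      _ ≤ sat s t perm w x := hx
      _ ≤ _ := hsat

end Pool.Agent.Lib.P325F
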