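import Pool.Agent.Lib.P325F.Basic

/-!
# Module Glue (1 h): gluing labellings of disjoint pieces

`sat_mono`, `sat_nonneg`: termwise.
`glue`: define `y v = x i v` if `v ∈ S i` (the `i` is unique by disjointness), arbitrary otherwise (`hL`). An edge inside `S i` is satisfied by `y`
iff by `x i`, and an edge is inside at most one `S i`, so for every edge `∑ i, (if Good (x i) e then ins (S i) e else 0) ≤ (if Good y e then w e else 0)`.
-/

set_option autoImplicit false

open Finset Matrix

namespace Pool.Agent.Lib.P325F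

variable {V ι : Type} [Fintype V] [DecidableEq V] [Fintype ι] {s t : ι → V} {w : ι → ℝ}

omit [Fintype V] [DecidableEq V] in
theorem sat_mono {L : Type} (perm : ι → Equiv.Perm L) {w w' : ι → ℝ} (h : ∀ e, w e ≤ w' e)
    (x : V → L) : sat s t perm w x ≤ sat s t perm w' x := by
  classical
  unfold sat
  refine Finset.sum_le_sum fun e _ => ?_
  by_cases hg : Good s t perm x e
  · rw [if_pos hg, if_pos hg]; exact h e
  · rw [if_neg hg, if_neg hg]

omit [Fintype V] [DecidableEq V] in
theorem sat_nonneg {L : Type} (perm : ι → Equiv.Perm L) (hw : ∀ e, 0 ≤ w e)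
    (x : V → L) : 0 ≤ sat s t perm w x := by
  classical
  unfold sat
  refine Finset.sum_nonneg fun e _ => ?_
  by_cases hg : Good s t perm x e
  · rw [if_pos hg]; exact hw e
  · rw [if_neg hg]

omit [Fintype V] in
theorem glue {L : Type} (hL : Nonempty (V → L)) (perm : ι → Equiv.Perm L)
    (hw : ∀ e, 0 ≤ w e) {k : ℕ} (S : Fin k → Finset V)
    (hS : ∀ i j, i ≠ j → Disjoint (S i) (S j)) (x : Fin k → V → L) :
    ∃ y : V → L, ∑ i, sat s t perm (ins s t w (S i)) (x i) ≤ sat s t perm w y := by
  classical
  obtain ⟨x0⟩ := hL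
  have huniq : ∀ i j v, v ∈ S i → v ∈ S j → i = j := by
    intro i j v hi hj
    by_contra hne
    exact (Finset.disjoint_left.mp (hS i j hne)) hi hj
  let y : V → L := fun v => if h : ∃ i, v ∈ S i then x h.choose v else x0 v
  have hy : ∀ i v, v ∈ S i → y v = x i v := by
    intro i v hv
    have h : ∃ i, v ∈ S i := ⟨i, hv⟩
    have e1 : h.choose = i := huniq _ _ v h.choose_spec hv
    simp only [y, dif_pos h, e1]
  refine ⟨y, ?_⟩
  unfold sat
  rw [Finset.sum_comm]
  refine Finset.sum_le_sum fun e _ => ?_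
  by_cases h : ∃ i, s e ∈ S i ∧ t e ∈ S i
  · obtain ⟨i, h1, h2⟩ := h
    rw [Finset.sum_eq_single i]
    · have hgi : Good s t perm y e ↔ Good s t perm (x i) e := by
        unfold Good
        rw [hy i _ h1, hy i _ h2]
      by_cases hg : Good s t perm (x i) e
      · rw [if_pos hg, if_pos (hgi.mpr hg), ins, if_pos ⟨h1, h2⟩]
      · rw [if_neg hg, if_neg (fun h => hg (hgi.mp h))]
    · intro j _ hj
      have : ¬ (s e ∈ S j ∧ t e ∈ S j) := fun h => hj (huniq _ _ _ h.1 h1)
      rw [ins, if_neg this]
      simp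
    · intro h; exact absurd (Finset.mem_univ _) h
  · have h0 : ∑ i, (if Good s t perm (x i) e then ins s t w (S i) e else 0) = 0 := by
      refine Finset.sum_eq_zero fun i _ => ?_
      rw [ins, if_neg (fun hh => h ⟨i, hh⟩)]
      simp
    rw [h0]
    by_cases hg : Good s t perm y e
    · rw [if_pos hg]; exact hw e
    · rw [if_neg hg]

end Pool.Agent.Lib.P325F
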