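import Pool.Agent.Lib.P325F.Basic

/-!
# Module Heat (2 h): many closed walks give a slowly decaying heat vector

Write `M = MM s t w`, `m = ∑ w`, `π x = dg x / (2 m)` (`∑ π = 1` by `sum_dg`).
`trace (M^(2J)) = ∑ v, |M^J e_v|^2` (`M` symmetric, `e_v = Pi.single v 1`; `M^(2J) v v = (M^J e_v) ⬝ᵥ (M^J e_v)`). If `dg v = 0` then
`M e_v = 0` (`MM_zero`, symmetry) and the term is `0` because `0 < J`. If all `v` with `dg v > 0` had `|M^J e_v|^2 ≤ Q π v`, then the trace
would be `≤ Q`. So fix `v` with `dg v > 0` and `|M^J e_v|^2 > Q π v`.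
Let `u j = |M^j e_v|^2 / π v`, so `u 0 = 1 / π v ≤ g⁻¹`, `u` is antitone (`contr`), `u J > Q > 1` (so all `log (u j) > 0`).
If `Γ log (u (j+1)) < log (u j)` for all `j < J`, then `Γ^j log (u j) ≤ log (u 0)` for all `j ≤ J` (induction), so
`log (u 0) ≥ Γ^J log (u J) > Γ^J log Q ≥ log g⁻¹ ≥ log (u 0)`, contradiction. So `log (u j) ≤ Γ log (u (j+1))`, that is `u j ≤ (u (j+1))^Γ`, for some `j < J`.
Take `h = (√(π v))⁻¹ • M^j e_v`: `h ≥ 0` (entries of `M` are nonnegative), `∑ x, √(π x) h x = 1` (`M` fixes `√dg` hence `√π`, `M` symmetric, so the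
pairing of `√π` with `M^j e_v` is `√(π v)`), `h ⬝ᵥ h = u j`, `|M h|^2 = u (j+1) ≥ u J > Q`.
`h x = 0` if `dg x = 0`: for `j = 0` because `x ≠ v`, for `j > 0` by `MM_zero`.
-/

set_option autoImplicit false

open Finset Matrix

namespace Pool.Agent.Lib.P325F

variable {V ι : Type} [Fintype V] [DecidableEq V] [Fintype ι] {s t : ι → V} {w : ι → ℝ}

namespace HeatAux

/-- column `v` of the `j`-th power -/
noncomputable def col (s t : ι → V) (w : ι → ℝ) (j : ℕ) (v x : V) : ℝ := (MM s t w ^ j) x v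

theorem col_succ (j : ℕ) (v : V) : col s t w (j + 1) v = MM s t w *ᵥ col s t w j v := by
  ext x
  simp only [col, pow_succ', Matrix.mul_apply, Matrix.mulVec, dotProduct]

theorem pow_symm (j : ℕ) (x y : V) : (MM s t w ^ j) x y = (MM s t w ^ j) y x := by
  have h : (MM s t w ^ j)ᵀ = MM s t w ^ j := by rw [Matrix.transpose_pow, MM_transpose]
  calc (MM s t w ^ j) x y = (MM s t w ^ j)ᵀ y x := rfl
    _ = _ := by rw [h]

theorem col_nonneg (hw : ∀ e, 0 ≤ w e) (j : ℕ) (v x : V) : 0 ≤ col s t w j v x := by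
  induction j generalizing x with
  | zero =>
    simp only [col, pow_zero, Matrix.one_apply]
    split_ifs <;> norm_num
  | succ j ih =>
    rw [col_succ]
    simp only [Matrix.mulVec, dotProduct]
    exact Finset.sum_nonneg fun y _ => mul_nonneg (MM_nonneg hw x y) (ih y)

theorem col_zero (hw : ∀ e, 0 ≤ w e) (j : ℕ) {v x : V} (hx : dg s t w x = 0) (hvx : x ≠ v) :
    col s t w j v x = 0 := by
  cases j with
  | zero => simp [col, Matrix.one_apply, hvx]
  | succ j =>
    rw [col_succ]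
    simp only [Matrix.mulVec, dotProduct]
    exact Finset.sum_eq_zero fun y _ => by rw [MM_zero hw hx, zero_mul]

theorem col_base_zero (hw : ∀ e, 0 ≤ w e) {j : ℕ} (hj : 0 < j) {v : V} (hv : dg s t w v = 0) :
    col s t w j v = 0 := by
  ext x
  obtain ⟨k, rfl⟩ := Nat.exists_eq_succ_of_ne_zero hj.ne'
  simp only [col, Pi.zero_apply]
  rw [pow_symm, Nat.succ_eq_add_one, pow_succ', Matrix.mul_apply]
  exact Finset.sum_eq_zero fun y _ => by rw [MM_zero hw hv, zero_mul]

theorem trace_eq (J : ℕ) :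
    (MM s t w ^ (2 * J)).trace = ∑ v, col s t w J v ⬝ᵥ col s t w J v := by
  simp only [Matrix.trace, Matrix.diag_apply, two_mul, pow_add, Matrix.mul_apply, col, dotProduct]
  refine Finset.sum_congr rfl fun v _ => Finset.sum_congr rfl fun x _ => ?_
  rw [pow_symm J v x]

theorem sqrt_col (hw : ∀ e, 0 ≤ w e) (j : ℕ) (v : V) :
    ∑ x, √(dg s t w x) * col s t w j v x = √(dg s t w v) := by
  induction j with
  | zero => simp [col, Matrix.one_apply]
  | succ j ih =>
    rw [← ih, col_succ]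
    have h1 : ∑ x, √(dg s t w x) * (MM s t w *ᵥ col s t w j v) x =
        (fun x => √(dg s t w x)) ⬝ᵥ (MM s t w *ᵥ col s t w j v) := rfl
    rw [h1, Matrix.dotProduct_mulVec, ← Matrix.mulVec_transpose, MM_transpose,
      MM_mulVec_sqrt hw]
    rfl

theorem col_self (v : V) : col s t w 0 v ⬝ᵥ col s t w 0 v = 1 := by
  simp [col, dotProduct, Matrix.one_apply]

end HeatAux

open HeatAux in
theorem heat (hw : ∀ e, 0 ≤ w e) (hm : 0 < ∑ e, w e) {g : ℝ} (hg : 0 < g)
    (hmin : ∀ x, 0 < dg s t w x → g ≤ dg s t w x / (2 * ∑ e, w e)) {J : ℕ} (hJ : 0 < J)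
    {Q Γ : ℝ} (hQ : 1 < Q) (hΓ : 1 ≤ Γ) (hΓQ : Real.log g⁻¹ ≤ Γ ^ J * Real.log Q)
    (htr : Q < (MM s t w ^ (2 * J)).trace) :
    ∃ h : V → ℝ, (∀ x, 0 ≤ h x) ∧ (∀ x, dg s t w x = 0 → h x = 0) ∧
      ∑ x, √(dg s t w x / (2 * ∑ e, w e)) * h x = 1 ∧
      Q < (MM s t w *ᵥ h) ⬝ᵥ (MM s t w *ᵥ h) ∧
      h ⬝ᵥ h ≤ ((MM s t w *ᵥ h) ⬝ᵥ (MM s t w *ᵥ h)) ^ Γ := by
  have hm2 : 0 < 2 * ∑ e, w e := by linarith
  obtain ⟨v, hv0, hv⟩ : ∃ v, 0 < dg s t w v ∧
      Q * (dg s t w v / (2 * ∑ e, w e)) < col s t w J v ⬝ᵥ col s t w J v := by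
    by_contra hcon
    push Not at hcon
    have h1 : ∑ v, col s t w J v ⬝ᵥ col s t w J v ≤
        ∑ v, Q * (dg s t w v / (2 * ∑ e, w e)) := by
      refine Finset.sum_le_sum fun v _ => ?_
      rcases (dg_nonneg hw v).eq_or_lt' with h0 | h0
      · rw [col_base_zero hw hJ h0, h0]
        simp
      · exact hcon v h0
    rw [← Finset.mul_sum, ← Finset.sum_div, sum_dg, div_self hm2.ne', mul_one, ← trace_eq] at h1
    linarith
  set p : ℝ := dg s t w v / (2 * ∑ e, w e) with hp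
  have hp0 : 0 < p := div_pos hv0 hm2
  set u : ℕ → ℝ := fun j => (col s t w j v ⬝ᵥ col s t w j v) / p with hu
  have hu0 : u 0 ≤ g⁻¹ := by
    simp only [hu, col_self, one_div]
    exact inv_anti₀ hg (hmin v hv0)
  have hanti : Antitone u := by
    refine antitone_nat_of_succ_le fun j => ?_
    simp only [hu, col_succ]
    gcongr
    exact contr hw _
  have huJ : Q < u J := by
    simp only [hu]
    rwa [lt_div_iff₀ hp0]
  have hlog : ∀ j ≤ J, 0 < Real.log (u j) := fun j hj =>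
    Real.log_pos (lt_trans hQ (lt_of_lt_of_le huJ (hanti hj)))
  obtain ⟨j, hj, hjj⟩ : ∃ j < J, Real.log (u j) ≤ Γ * Real.log (u (j + 1)) := by
    by_contra hcon
    push Not at hcon
    have h1 : ∀ j ≤ J, Γ ^ j * Real.log (u j) ≤ Real.log (u 0) := by
      intro j
      induction j with
      | zero => intro _; simp
      | succ j ih =>
        intro hj
        refine le_trans ?_ (ih (by omega))
        rw [pow_succ, mul_assoc]
        exact mul_le_mul_of_nonneg_left (hcon j (by omega)).le (by positivity)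
    have h2 := h1 J le_rfl
    have h3 : Real.log (u 0) ≤ Real.log g⁻¹ :=
      Real.log_le_log (lt_trans (by linarith) (lt_of_lt_of_le huJ (hanti (Nat.zero_le J)))) hu0
    have h4 : Γ ^ J * Real.log Q < Γ ^ J * Real.log (u J) :=
      mul_lt_mul_of_pos_left (Real.log_lt_log (by linarith) huJ) (by positivity)
    linarith
  have huj : Q < u (j + 1) := lt_of_lt_of_le huJ (hanti (by omega))
  have huj1 : 0 < u (j + 1) := by linarith
  have huj0 : 0 < u j := lt_of_lt_of_le huj1 (hanti (Nat.le_succ j))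
  have key : u j ≤ u (j + 1) ^ Γ := by
    rw [← Real.log_le_log_iff huj0 (Real.rpow_pos_of_pos huj1 _), Real.log_rpow huj1]
    exact hjj
  have hsp : 0 < √p := Real.sqrt_pos.2 hp0
  have hMh : MM s t w *ᵥ ((√p)⁻¹ • col s t w j v) = (√p)⁻¹ • col s t w (j + 1) v := by
    rw [Matrix.mulVec_smul, col_succ]
  have hdot : ∀ i, ((√p)⁻¹ • col s t w i v) ⬝ᵥ ((√p)⁻¹ • col s t w i v) = u i := by
    intro i
    rw [smul_dotProduct, dotProduct_smul, smul_eq_mul, smul_eq_mul, ← mul_assoc, ← mul_inv,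
      Real.mul_self_sqrt hp0.le]
    simp only [hu, div_eq_inv_mul]
  refine ⟨(√p)⁻¹ • col s t w j v, fun x => ?_, fun x hx => ?_, ?_, ?_, ?_⟩
  · simp only [Pi.smul_apply, smul_eq_mul]
    exact mul_nonneg (inv_nonneg.2 hsp.le) (col_nonneg hw j v x)
  · simp only [Pi.smul_apply, smul_eq_mul]
    rw [col_zero hw j hx (fun h => by rw [h] at hx; linarith), mul_zero]
  · have h1 : ∀ x, √(dg s t w x / (2 * ∑ e, w e)) * ((√p)⁻¹ • col s t w j v) x =
        ((√p)⁻¹ * (√(2 * ∑ e, w e))⁻¹) * (√(dg s t w x) * col s t w j v x) := by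
      intro x
      rw [Real.sqrt_div (dg_nonneg hw x)]
      simp only [Pi.smul_apply, smul_eq_mul, div_eq_mul_inv]
      ring
    rw [Finset.sum_congr rfl fun x _ => h1 x, ← Finset.mul_sum, sqrt_col hw, hp,
      Real.sqrt_div (dg_nonneg hw v)]
    have h2 : 0 < √(dg s t w v) := Real.sqrt_pos.2 hv0
    have h3 : 0 < √(2 * ∑ e, w e) := Real.sqrt_pos.2 hm2
    field_simp
  · rw [hMh, hdot]
    exact huj
  · rw [hMh, hdot, hdot]
    exact key

end Pool.Agent.Lib.P325F
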