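import Pool.Agent.Lib.P325F.Basic

/-!
# Module Layer (2 h): a level set with many inner edges

`layer`: a function `f ≥ 0` on a finite set is `∑ i, c i * 1_{S i}` with `c i > 0` and nested sets `S i` inside `{f > 0}`, and then
`min (f x) (f y) = ∑ i, c i * 1[x ∈ S i ∧ y ∈ S i]`. Induction on the number of points of the support `T = {f > 0}`: if `T` is empty, `k = 0`.
Otherwise let `v > 0` be the minimum of `f` on `T`; apply the induction hypothesis to `f' = f - v` on `T`, `0` off `T` (its support is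
smaller), add the set `T` with coefficient `v`. The formula for the minimum: `min (f x) (f y) = v + min (f' x) (f' y)` if `x, y ∈ T`, and
`0` otherwise (then the new sum is `0` too, since `S i ⊆ {f' > 0} ⊆ T`). (Alternative: prove the minimum formula from nestedness.)

`level`: put `A = ∑ w F_s F_t`, `B = (∑ w (F_s^2 + F_t^2)) / 2`. `∑ w |F_s^2 - F_t^2| ≤ √(∑ w (F_s - F_t)^2) √(∑ w (F_s + F_t)^2) =
√((2B-2A)(2B+2A)) = 2 √(B^2 - A^2)`, so `∑ w min(F_s^2, F_t^2) = B - (∑ w |F_s^2 - F_t^2|)/2 ≥ B - √(B^2 - A^2) ≥ A^2/(2B) ≥ θ^2 B / 2`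
(`B > 0` since `A > 0`, `A ≤ B`). Apply `layer` to `f = F^2`. `2 B = ∑ w (f_s + f_t) = ∑ i, c i * ∑_{x ∈ S i} dg x` (`sum_dg_mul`), and
`∑ w min(f_s, f_t) = ∑ i, c i * ∑ e, ins s t w (S i) e`. If every `i` with `∑_{S i} dg > 0` had `2 ∑ ins (S i) < (θ^2/2) ∑_{S i} dg` then
(for `∑_{S i} dg = 0` also `∑ ins (S i) = 0`, as `∑ ins ≤ ∑_{S} dg`) `θ^2 B ≤ 2 ∑ w min < (θ^2/2) 2 B` (strict because some `S i` has
positive degree sum, `B > 0`), contradiction.
-/

set_option autoImplicit false

open Finset Matrix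

namespace Pool.Agent.Lib.P325F

variable {V ι : Type} [Fintype V] [DecidableEq V] [Fintype ι] {s t : ι → V} {w : ι → ℝ}

private theorem layer_aux : ∀ (n : ℕ) (f : V → ℝ), (∀ x, 0 ≤ f x) →
    (univ.filter fun x => 0 < f x).card ≤ n →
    ∃ (k : ℕ) (c : Fin k → ℝ) (S : Fin k → Finset V), (∀ i, 0 < c i) ∧
      (∀ i, ∀ x ∈ S i, 0 < f x) ∧ (∀ x, f x = ∑ i, if x ∈ S i then c i else 0) ∧
      ∀ x y, min (f x) (f y) = ∑ i, if x ∈ S i ∧ y ∈ S i then c i else 0 := by
  intro n
  induction n with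
  | zero =>
    intro f hf hc
    have h0 : ∀ x, f x = 0 := by
      intro x
      by_contra hx
      have hpos : 0 < f x := lt_of_le_of_ne (hf x) (Ne.symm hx)
      have : x ∈ univ.filter fun x => 0 < f x := mem_filter.2 ⟨mem_univ _, hpos⟩
      have := Finset.card_pos.2 ⟨x, this⟩
      omega
    refine ⟨0, Fin.elim0, Fin.elim0, fun i => i.elim0, fun i => i.elim0, fun x => ?_,
      fun x y => ?_⟩
    · rw [h0 x, Finset.univ_eq_empty, Finset.sum_empty]
    · rw [h0 x, h0 y, Finset.univ_eq_empty, Finset.sum_empty, min_self]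
  | succ n ih =>
    intro f hf hc
    set T : Finset V := univ.filter fun x => 0 < f x with hT
    have hTm : ∀ x, x ∈ T ↔ 0 < f x := fun x => by simp [hT]
    by_cases hTe : T.Nonempty
    · obtain ⟨x0, hx0, hmin⟩ := Finset.exists_min_image T f hTe
      set v : ℝ := f x0 with hv
      have hv0 : 0 < v := (hTm x0).1 hx0
      set f' : V → ℝ := fun x => if x ∈ T then f x - v else 0 with hf'
      have hf'T : ∀ x, x ∈ T → f' x = f x - v := fun x hx => by simp [hf', hx]
      have hf'n : ∀ x, x ∉ T → f' x = 0 := fun x hx => by simp [hf', hx]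
      have hf'0 : ∀ x, 0 ≤ f' x := by
        intro x
        by_cases hx : x ∈ T
        · rw [hf'T x hx]
          linarith [hmin x hx]
        · rw [hf'n x hx]
      have hf'pos : ∀ x, 0 < f' x → x ∈ T := by
        intro x hx
        by_contra hn
        rw [hf'n x hn] at hx
        exact lt_irrefl _ hx
      have hcard : (univ.filter fun x => 0 < f' x).card ≤ n := by
        have hss : (univ.filter fun x => 0 < f' x) ⊆ T.erase x0 := by
          intro x hx
          have hx1 := (mem_filter.1 hx).2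
          refine mem_erase.2 ⟨?_, hf'pos x hx1⟩
          rintro rfl
          rw [hf'T _ hx0] at hx1
          linarith
        have h1 := Finset.card_le_card hss
        rw [Finset.card_erase_of_mem hx0] at h1
        omega
      obtain ⟨k, c, S, h1, h2, h3, h4⟩ := ih f' hf'0 hcard
      refine ⟨k + 1, Fin.cons v c, Fin.cons T S, ?_, ?_, ?_, ?_⟩
      · intro i
        refine Fin.cases ?_ (fun i => ?_) i
        · rw [Fin.cons_zero]; exact hv0
        · rw [Fin.cons_succ]; exact h1 i
      · intro i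
        refine Fin.cases ?_ (fun i => ?_) i
        · rw [Fin.cons_zero]
          intro x hx
          exact (hTm x).1 hx
        · rw [Fin.cons_succ]
          intro x hx
          exact (hTm x).1 (hf'pos x (h2 i x hx))
      · intro x
        rw [Fin.sum_univ_succ]
        simp only [Fin.cons_zero, Fin.cons_succ]
        rw [← h3 x]
        by_cases hx : x ∈ T
        · rw [if_pos hx, hf'T x hx]
          ring
        · rw [if_neg hx, hf'n x hx]
          have : ¬ 0 < f x := fun h => hx ((hTm x).2 h)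
          have := hf x
          linarith
      · intro x y
        rw [Fin.sum_univ_succ]
        simp only [Fin.cons_zero, Fin.cons_succ]
        rw [← h4 x y]
        by_cases hxy : x ∈ T ∧ y ∈ T
        · rw [if_pos hxy, hf'T x hxy.1, hf'T y hxy.2, min_sub_sub_right]
          ring
        · rw [if_neg hxy, zero_add]
          by_cases hx : x ∈ T
          · have hy : y ∉ T := fun hy => hxy ⟨hx, hy⟩
            have hy0 : f y = 0 := le_antisymm (not_lt.1 fun h => hy ((hTm y).2 h)) (hf y)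
            rw [hy0, hf'n y hy, min_eq_right (hf x), min_eq_right (hf'0 x)]
          · have hx0' : f x = 0 := le_antisymm (not_lt.1 fun h => hx ((hTm x).2 h)) (hf x)
            rw [hx0', hf'n x hx, min_eq_left (hf y), min_eq_left (hf'0 y)]
    · have hcard0 : (univ.filter fun x => 0 < f x).card ≤ n := by
        rw [← hT, Finset.not_nonempty_iff_eq_empty.1 hTe, Finset.card_empty]
        exact Nat.zero_le _
      exact ih f hf hcard0

theorem layer (f : V → ℝ) (hf : ∀ x, 0 ≤ f x) :
    ∃ (k : ℕ) (c : Fin k → ℝ) (S : Fin k → Finset V), (∀ i, 0 < c i) ∧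
      (∀ i, ∀ x ∈ S i, 0 < f x) ∧ (∀ x, f x = ∑ i, if x ∈ S i then c i else 0) ∧
      ∀ x y, min (f x) (f y) = ∑ i, if x ∈ S i ∧ y ∈ S i then c i else 0 :=
  layer_aux _ f hf le_rfl

private theorem sum_ins_le (hw : ∀ e, 0 ≤ w e) (S : Finset V) :
    2 * ∑ e, ins s t w S e ≤ ∑ x ∈ S, dg s t w x := by
  have h1 := sum_dg_mul (s := s) (t := t) (w := w) (fun x => if x ∈ S then (1 : ℝ) else 0)
  have h2 : ∑ x, dg s t w x * (if x ∈ S then (1 : ℝ) else 0) = ∑ x ∈ S, dg s t w x := by
    simp only [mul_ite, mul_one, mul_zero]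
    rw [Finset.sum_ite_mem, Finset.univ_inter]
  rw [← h2, h1, Finset.mul_sum]
  apply Finset.sum_le_sum
  intro e _
  unfold ins
  have hwe := hw e
  by_cases hs : s e ∈ S
  · by_cases ht : t e ∈ S
    · rw [if_pos ⟨hs, ht⟩, if_pos hs, if_pos ht]
      linarith
    · rw [if_neg (fun h => ht h.2), if_pos hs, if_neg ht]
      linarith
  · rw [if_neg (fun h => hs h.1), if_neg hs]
    split_ifs <;> linarith

theorem level (hw : ∀ e, 0 ≤ w e) {F : V → ℝ} (hF : ∀ x, 0 ≤ F x) {θ : ℝ} (hθ : 0 < θ)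
    (hA : 0 < ∑ e, w e * (F (s e) * F (t e)))
    (hAB : θ * ((∑ e, w e * (F (s e) ^ 2 + F (t e) ^ 2)) / 2) ≤ ∑ e, w e * (F (s e) * F (t e))) :
    ∃ S : Finset V, (∀ x ∈ S, 0 < F x) ∧ 0 < ∑ x ∈ S, dg s t w x ∧
      θ ^ 2 / 2 * ∑ x ∈ S, dg s t w x ≤ 2 * ∑ e, ins s t w S e := by
  set A : ℝ := ∑ e, w e * (F (s e) * F (t e)) with hAd
  set D : ℝ := ∑ e, w e * (F (s e) ^ 2 + F (t e) ^ 2) with hDd
  set m : ℝ := ∑ e, w e * min (F (s e) ^ 2) (F (t e) ^ 2) with hmd
  -- `A ^ 2 ≤ m * D`
  have hAD : A ≤ D / 2 := by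
    rw [hAd, hDd, Finset.sum_div]
    apply Finset.sum_le_sum
    intro e _
    have h1 : F (s e) * F (t e) ≤ (F (s e) ^ 2 + F (t e) ^ 2) / 2 := by
      nlinarith [sq_nonneg (F (s e) - F (t e))]
    calc w e * (F (s e) * F (t e)) ≤ w e * ((F (s e) ^ 2 + F (t e) ^ 2) / 2) :=
          mul_le_mul_of_nonneg_left h1 (hw e)
      _ = w e * (F (s e) ^ 2 + F (t e) ^ 2) / 2 := by ring
  have hD0 : 0 < D := by linarith
  have hCS : A ^ 2 ≤ m * D := by
    have h1 : A = ∑ e, (√(w e) * min (F (s e)) (F (t e))) * (√(w e) * max (F (s e)) (F (t e))) := by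
      rw [hAd]
      apply Finset.sum_congr rfl
      intro e _
      have h2 : √(w e) * √(w e) = w e := Real.mul_self_sqrt (hw e)
      have h3 : min (F (s e)) (F (t e)) * max (F (s e)) (F (t e)) = F (s e) * F (t e) :=
        min_mul_max _ _
      calc w e * (F (s e) * F (t e)) = (√(w e) * √(w e)) *
            (min (F (s e)) (F (t e)) * max (F (s e)) (F (t e))) := by rw [h2, h3]
        _ = _ := by ring
    have h4 := Finset.sum_mul_sq_le_sq_mul_sq univ
      (fun e => √(w e) * min (F (s e)) (F (t e))) (fun e => √(w e) * max (F (s e)) (F (t e)))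
    rw [← h1] at h4
    have h5 : ∑ e, (√(w e) * min (F (s e)) (F (t e))) ^ 2 = m := by
      rw [hmd]
      apply Finset.sum_congr rfl
      intro e _
      rw [mul_pow, Real.sq_sqrt (hw e)]
      congr 1
      rcases le_total (F (s e)) (F (t e)) with h | h
      · rw [min_eq_left h, min_eq_left (pow_le_pow_left₀ (hF _) h 2)]
      · rw [min_eq_right h, min_eq_right (pow_le_pow_left₀ (hF _) h 2)]
    have h6 : ∑ e, (√(w e) * max (F (s e)) (F (t e))) ^ 2 ≤ D := by
      rw [hDd]
      apply Finset.sum_le_sum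
      intro e _
      rw [mul_pow, Real.sq_sqrt (hw e)]
      apply mul_le_mul_of_nonneg_left _ (hw e)
      rcases le_total (F (s e)) (F (t e)) with h | h
      · rw [max_eq_right h]
        nlinarith [sq_nonneg (F (s e))]
      · rw [max_eq_left h]
        nlinarith [sq_nonneg (F (t e))]
    have hm0 : 0 ≤ m := by
      rw [← h5]
      exact Finset.sum_nonneg fun e _ => sq_nonneg _
    refine h4.trans ?_
    rw [h5]
    exact mul_le_mul_of_nonneg_left h6 hm0
  have hm : θ ^ 2 / 4 * D ≤ m := by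
    have h1 : (θ * (D / 2)) ^ 2 ≤ A ^ 2 := by
      apply pow_le_pow_left₀ (by positivity) hAB
    have h2 : θ ^ 2 / 4 * D * D ≤ m * D := by nlinarith
    exact le_of_mul_le_mul_right h2 hD0
  obtain ⟨k, c, S, hc, hS, hf, hmin⟩ := layer (fun x => F x ^ 2) (fun x => sq_nonneg _)
  have hDs : D = ∑ i, c i * ∑ x ∈ S i, dg s t w x := by
    rw [hDd]
    have h1 := sum_dg_mul (s := s) (t := t) (w := w) (fun x => F x ^ 2)
    rw [← h1]
    have h2 : ∀ x, dg s t w x * F x ^ 2 = ∑ i, dg s t w x * (if x ∈ S i then c i else 0) := by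
      intro x
      have h3 : F x ^ 2 = ∑ i, if x ∈ S i then c i else 0 := hf x
      rw [h3, Finset.mul_sum]
    simp only [h2]
    rw [Finset.sum_comm]
    apply Finset.sum_congr rfl
    intro i _
    rw [Finset.mul_sum]
    simp only [mul_ite, mul_zero]
    rw [Finset.sum_ite_mem, Finset.univ_inter]
    apply Finset.sum_congr rfl
    intro x _
    ring
  have hms : m = ∑ i, c i * ∑ e, ins s t w (S i) e := by
    rw [hmd]
    have h2 : ∀ e, w e * min (F (s e) ^ 2) (F (t e) ^ 2) =
        ∑ i, c i * ins s t w (S i) e := by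
      intro e
      have h3 : min (F (s e) ^ 2) (F (t e) ^ 2) =
          ∑ i, if s e ∈ S i ∧ t e ∈ S i then c i else 0 := hmin (s e) (t e)
      rw [h3, Finset.mul_sum]
      apply Finset.sum_congr rfl
      intro i _
      unfold ins
      split_ifs
      · ring
      · ring
    simp only [h2]
    rw [Finset.sum_comm]
    apply Finset.sum_congr rfl
    intro i _
    rw [Finset.mul_sum]
  by_contra hcon
  push Not at hcon
  have hFpos : ∀ i, ∀ x ∈ S i, 0 < F x := by
    intro i x hx
    have h1 : 0 < F x ^ 2 := hS i x hx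
    rcases (hF x).eq_or_lt with h2 | h2
    · rw [← h2] at h1
      norm_num at h1
    · exact h2
  have hle : ∀ i, c i * (2 * ∑ e, ins s t w (S i) e) ≤
      c i * (θ ^ 2 / 2 * ∑ x ∈ S i, dg s t w x) := by
    intro i
    apply mul_le_mul_of_nonneg_left _ (hc i).le
    rcases lt_or_ge 0 (∑ x ∈ S i, dg s t w x) with h1 | h1
    · exact (hcon (S i) (hFpos i) h1).le
    · have h2 := sum_ins_le (s := s) (t := t) hw (S i)
      have h3 : 0 ≤ ∑ x ∈ S i, dg s t w x := Finset.sum_nonneg fun x _ => dg_nonneg hw x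
      have h4 : ∑ x ∈ S i, dg s t w x = 0 := le_antisymm h1 h3
      rw [h4] at h2 ⊢
      linarith
  have hex : ∃ i, 0 < c i * ∑ x ∈ S i, dg s t w x := by
    by_contra hno
    push Not at hno
    have : D ≤ 0 := by
      rw [hDs]
      exact Finset.sum_nonpos fun i _ => hno i
    linarith
  obtain ⟨i0, hi0⟩ := hex
  have hdg0 : 0 < ∑ x ∈ S i0, dg s t w x := by
    rcases lt_or_ge 0 (∑ x ∈ S i0, dg s t w x) with h | h
    · exact h
    · have := mul_nonpos_of_nonneg_of_nonpos (hc i0).le h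
      linarith
  have hlt : ∑ i, c i * (2 * ∑ e, ins s t w (S i) e) <
      ∑ i, c i * (θ ^ 2 / 2 * ∑ x ∈ S i, dg s t w x) := by
    apply Finset.sum_lt_sum (fun i _ => hle i)
    exact ⟨i0, mem_univ _, mul_lt_mul_of_pos_left (hcon (S i0) (hFpos i0) hdg0) (hc i0)⟩
  have h1 : ∑ i, c i * (2 * ∑ e, ins s t w (S i) e) = 2 * m := by
    rw [hms, Finset.mul_sum]
    apply Finset.sum_congr rfl
    intro i _
    ring
  have h2 : ∑ i, c i * (θ ^ 2 / 2 * ∑ x ∈ S i, dg s t w x) = θ ^ 2 / 2 * D := by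
    rw [hDs, Finset.mul_sum]
    apply Finset.sum_congr rfl
    intro i _
    ring
  rw [h1, h2] at hlt
  linarith

end Pool.Agent.Lib.P325F
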