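import Pool.Agent.Lib.P325F.Basic

/-!
# Module Lift (1.5 h): the label extended graph

`LL_row`: for every edge exactly one `b` contributes (`perm e` is a bijection).
`trace_LL`: `trace (X * LL) = ∑ p, ∑ q, X p q * LL q p`. If `w e ≠ 0` then the degrees at both ends of `e` are positive and
`√(dg x/(2m)) / √(dg x) = 1/√(2m)`; terms with `w e = 0` vanish. So the sum is `(2m)⁻¹ ∑ e, w e ∑ a, (C (t e, perm e a) (s e, a) + C (s e, a) (t e, perm e a))`.
-/

set_option autoImplicit false

open Finset Matrix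

namespace Pool.Agent.Lib.P325F

variable {V ι L : Type} [Fintype V] [DecidableEq V] [Fintype ι] [Fintype L] [DecidableEq L]
  {s t : ι → V} {w : ι → ℝ}

/-- normalised adjacency matrix of the label extended graph -/
noncomputable def LL (s t : ι → V) (perm : ι → Equiv.Perm L) (w : ι → ℝ) :
    Matrix (V × L) (V × L) ℝ :=
  fun p q => (∑ e, w e * ((if s e = p.1 ∧ t e = q.1 ∧ perm e p.2 = q.2 then 1 else 0) +
    (if s e = q.1 ∧ t e = p.1 ∧ perm e q.2 = p.2 then 1 else 0))) /
      (√(dg s t w p.1) * √(dg s t w q.1))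

private theorem sum_ind_left (e : ι) (perm : ι → Equiv.Perm L) (G : V × L → V × L → ℝ) :
    ∑ p : V × L, ∑ q : V × L,
      G p q * (if s e = q.1 ∧ t e = p.1 ∧ perm e q.2 = p.2 then 1 else 0) =
      ∑ a, G (t e, perm e a) (s e, a) := by
  rw [sum_comm]
  have h1 : ∀ q : V × L, ∑ p : V × L,
      G p q * (if s e = q.1 ∧ t e = p.1 ∧ perm e q.2 = p.2 then 1 else 0) =
      if s e = q.1 then G (t e, perm e q.2) q else 0 := by
    intro q
    rw [sum_eq_single (t e, perm e q.2)]
    · by_cases h : s e = q.1 <;> simp [h]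
    · rintro ⟨p1, p2⟩ _ hp
      rw [if_neg, mul_zero]
      rintro ⟨_, h2, h3⟩
      exact hp (by simp [h2, h3])
    · intro h
      exact absurd (mem_univ _) h
  simp only [h1]
  rw [Fintype.sum_prod_type, sum_comm]
  refine sum_congr rfl fun a _ => ?_
  simp

private theorem sum_ind_right (e : ι) (perm : ι → Equiv.Perm L) (G : V × L → V × L → ℝ) :
    ∑ p : V × L, ∑ q : V × L,
      G p q * (if s e = p.1 ∧ t e = q.1 ∧ perm e p.2 = q.2 then 1 else 0) =
      ∑ a, G (s e, a) (t e, perm e a) := by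
  rw [sum_comm]
  exact sum_ind_left e perm (fun p q => G q p)

private theorem dg_pos_left (hw : ∀ e, 0 ≤ w e) {e : ι} (he : 0 < w e) :
    0 < dg s t w (s e) := by
  unfold dg
  have h0 : ∀ e' ∈ (univ : Finset ι), 0 ≤ w e' * ((if s e' = s e then (1 : ℝ) else 0) +
      (if t e' = s e then 1 else 0)) := by
    intro e' _
    refine mul_nonneg (hw e') (add_nonneg ?_ ?_) <;> split_ifs <;> norm_num
  refine lt_of_lt_of_le ?_ (single_le_sum h0 (mem_univ e))
  refine mul_pos he ?_
  have : (0 : ℝ) ≤ if t e = s e then 1 else 0 := by split_ifs <;> norm_num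
  simp only [if_true]
  linarith

private theorem dg_pos_right (hw : ∀ e, 0 ≤ w e) {e : ι} (he : 0 < w e) :
    0 < dg s t w (t e) := by
  unfold dg
  have h0 : ∀ e' ∈ (univ : Finset ι), 0 ≤ w e' * ((if s e' = t e then (1 : ℝ) else 0) +
      (if t e' = t e then 1 else 0)) := by
    intro e' _
    refine mul_nonneg (hw e') (add_nonneg ?_ ?_) <;> split_ifs <;> norm_num
  refine lt_of_lt_of_le ?_ (single_le_sum h0 (mem_univ e))
  refine mul_pos he ?_
  have : (0 : ℝ) ≤ if s e = t e then 1 else 0 := by split_ifs <;> norm_num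
  simp only [if_true]
  linarith

theorem LL_nonneg (perm : ι → Equiv.Perm L) (hw : ∀ e, 0 ≤ w e) (p q : V × L) :
    0 ≤ LL s t perm w p q := by
  unfold LL
  refine div_nonneg (sum_nonneg fun e _ => mul_nonneg (hw e) (add_nonneg ?_ ?_))
    (mul_nonneg (Real.sqrt_nonneg _) (Real.sqrt_nonneg _)) <;> split_ifs <;> norm_num

theorem LL_symm (perm : ι → Equiv.Perm L) : (LL s t perm w).IsSymm := by
  refine Matrix.IsSymm.ext fun p q => ?_
  unfold LL
  rw [mul_comm (√(dg s t w q.1)) (√(dg s t w p.1))]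
  congr 1
  refine sum_congr rfl fun e _ => ?_
  rw [add_comm]

theorem LL_row (perm : ι → Equiv.Perm L) (x : V) (a : L) (y : V) :
    ∑ b, LL s t perm w (x, a) (y, b) = MM s t w x y := by
  unfold LL MM aj
  dsimp only
  rw [← sum_div]
  congr 1
  rw [sum_comm]
  refine sum_congr rfl fun e _ => ?_
  rw [← mul_sum, sum_add_distrib]
  congr 2
  · by_cases h : s e = x ∧ t e = y
    · obtain ⟨h1, h2⟩ := h
      simp [h1, h2]
    · rw [if_neg h]
      refine sum_eq_zero fun b _ => if_neg ?_
      rintro ⟨h1, h2, _⟩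
      exact h ⟨h1, h2⟩
  · by_cases h : s e = y ∧ t e = x
    · obtain ⟨h1, h2⟩ := h
      rw [if_pos ⟨h1, h2⟩, sum_eq_single ((perm e).symm a)]
      · simp [h1, h2]
      · intro b _ hb
        refine if_neg ?_
        rintro ⟨_, _, h3⟩
        exact hb (by rw [← h3]; simp)
      · intro h
        exact absurd (mem_univ _) h
    · rw [if_neg h]
      refine sum_eq_zero fun b _ => if_neg ?_
      rintro ⟨h1, h2, _⟩
      exact h ⟨h1, h2⟩

theorem trace_LL (perm : ι → Equiv.Perm L) (hw : ∀ e, 0 ≤ w e) (hm : 0 < ∑ e, w e)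
    {C : V × L → V × L → ℝ} (hC : ∀ p q, C p q = C q p) :
    ((Matrix.of fun p q : V × L => √(dg s t w p.1 / (2 * ∑ e, w e)) *
      √(dg s t w q.1 / (2 * ∑ e, w e)) * C p q) * LL s t perm w).trace =
      (∑ e, w e * ∑ a, C (s e, a) (t e, perm e a)) / ∑ e, w e := by
  set m : ℝ := ∑ e, w e with hmdef
  set G : V × L → V × L → ℝ := fun p q => √(dg s t w p.1 / (2 * m)) *
      √(dg s t w q.1 / (2 * m)) * C p q / (√(dg s t w q.1) * √(dg s t w p.1)) with hG
  have hGs : ∀ p q, G p q = G q p := by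
    intro p q
    simp only [hG]
    rw [hC p q]
    ring
  have h1 : ((Matrix.of fun p q : V × L => √(dg s t w p.1 / (2 * m)) *
      √(dg s t w q.1 / (2 * m)) * C p q) * LL s t perm w).trace =
      ∑ p : V × L, ∑ q : V × L, ∑ e, w e * (G p q *
        (if s e = q.1 ∧ t e = p.1 ∧ perm e q.2 = p.2 then 1 else 0) + G p q *
        (if s e = p.1 ∧ t e = q.1 ∧ perm e p.2 = q.2 then 1 else 0)) := by
    rw [Matrix.trace]
    refine sum_congr rfl fun p _ => ?_
    rw [Matrix.diag_apply, Matrix.mul_apply]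
    refine sum_congr rfl fun q _ => ?_
    rw [Matrix.of_apply, LL]
    rw [mul_div_assoc', mul_sum, sum_div]
    refine sum_congr rfl fun e _ => ?_
    simp only [hG]
    ring
  rw [h1]
  have h2 : ∑ p : V × L, ∑ q : V × L, ∑ e, w e * (G p q *
        (if s e = q.1 ∧ t e = p.1 ∧ perm e q.2 = p.2 then 1 else 0) + G p q *
        (if s e = p.1 ∧ t e = q.1 ∧ perm e p.2 = q.2 then 1 else 0)) =
      ∑ e, w e * (∑ a, G (t e, perm e a) (s e, a) + ∑ a, G (s e, a) (t e, perm e a)) := by
    have : ∀ p : V × L, ∑ q : V × L, ∑ e, w e * (G p q *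
        (if s e = q.1 ∧ t e = p.1 ∧ perm e q.2 = p.2 then 1 else 0) + G p q *
        (if s e = p.1 ∧ t e = q.1 ∧ perm e p.2 = q.2 then 1 else 0)) =
        ∑ e, ∑ q : V × L, w e * (G p q *
        (if s e = q.1 ∧ t e = p.1 ∧ perm e q.2 = p.2 then 1 else 0) + G p q *
        (if s e = p.1 ∧ t e = q.1 ∧ perm e p.2 = q.2 then 1 else 0)) := fun p => sum_comm
    simp only [this]
    rw [sum_comm]
    refine sum_congr rfl fun e _ => ?_
    rw [← sum_ind_left e perm G, ← sum_ind_right e perm G, ← sum_add_distrib, mul_sum]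
    refine sum_congr rfl fun p _ => ?_
    rw [← sum_add_distrib, mul_sum]
  rw [h2, sum_div]
  refine sum_congr rfl fun e _ => ?_
  rcases eq_or_lt_of_le (hw e) with h0 | hpos
  · rw [← h0]
    ring
  · have hs := dg_pos_left (s := s) (t := t) hw hpos
    have ht := dg_pos_right (s := s) (t := t) hw hpos
    have h2m : 0 < 2 * m := by positivity
    have hK : ∀ a, G (s e, a) (t e, perm e a) = C (s e, a) (t e, perm e a) / (2 * m) := by
      intro a
      simp only [hG]
      rw [Real.sqrt_div hs.le, Real.sqrt_div ht.le]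
      have h3 : √(2 * m) * √(2 * m) = 2 * m := Real.mul_self_sqrt h2m.le
      have h4 : √(dg s t w (s e)) ≠ 0 := (Real.sqrt_pos.2 hs).ne'
      have h5 : √(dg s t w (t e)) ≠ 0 := (Real.sqrt_pos.2 ht).ne'
      have h6 : √(2 * m) ≠ 0 := (Real.sqrt_pos.2 h2m).ne'
      have h7 : √(dg s t w (s e)) / √(2 * m) * (√(dg s t w (t e)) / √(2 * m)) *
          C (s e, a) (t e, perm e a) / (√(dg s t w (t e)) * √(dg s t w (s e))) =
          C (s e, a) (t e, perm e a) / (√(2 * m) * √(2 * m)) := by
        field_simp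
      rw [h7, h3]
    have hK2 : ∀ a, G (t e, perm e a) (s e, a) = C (s e, a) (t e, perm e a) / (2 * m) := by
      intro a
      rw [hGs, hK]
    simp only [hK, hK2]
    rw [← sum_div]
    field_simp
    ring

end Pool.Agent.Lib.P325F
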