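import Pool.Agent.Lib.P325F.Defs
import Pool.Agent.Lib.P325u.Loop

/-!
# Module Round (2 h): independent rounding

`prod_round`: with the weights `W σ = ∏ x, p x (σ x)` on the labelings `σ : V → L` (`W ≥ 0`, `∑ σ, W σ = ∏ x, ∑ a, p x a = 1`, `Finset.prod_univ_sum`):
`∑ σ, W σ * [σ (s e) = a] [σ (t e) = b] = p (s e) a * p (t e) b` as `s e ≠ t e` (`Finset.prod_univ_sum` for `p x a' * (if x = s e then [a' = a] else if x = t e then [a' = b] else 1)`),
so `∑ σ, W σ * sat σ = ∑ e, w e * ∑ a, p (s e) a * p (t e) (perm e a)`: some `σ` has `sat σ` at least this average.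
`round_indep`: for `α` with `E (P α) > 0` apply `prod_round` to `p x a = E (P α * ind x a) / E (P α)` (nonnegative, sum `1`). Average over `α` with the weights `E (P α)`:
`∑ α, E (P α) * (∑ a, E (P α * ind s a) / E (P α) * (E (P α * ind t (perm a)) / E (P α))) = ∑ a, (E (ind s a * ind t (perm a)) - cov (ind s a) (ind t (perm a)))` (terms with
`E (P α) = 0` contribute `0` to the left, and `E (P α * ..) = 0` on the right) and `∑ a, ind s a * ind t (perm a) = P325u.sat s t perm`. So some `α` has at least this value.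
-/

set_option autoImplicit false

open Finset Pool.Agent.Lib.P325u

namespace Pool.Agent.Lib.P325F

variable {V ι L : Type} [Fintype V] [DecidableEq V] [Fintype ι] [Fintype L] [DecidableEq L]
  {s t : ι → V} {w : ι → ℝ}

namespace RoundAux

/-- a weighted average is attained -/
theorem avg_attained {κ : Type} [Fintype κ] (W : κ → ℝ) (f : κ → ℝ) (hW : ∀ k, 0 ≤ W k)
    (h1 : ∑ k, W k = 1) : ∃ k, 0 < W k ∧ ∑ k, W k * f k ≤ f k := by
  by_contra hcon
  push Not at hcon
  set c := ∑ k, W k * f k with hc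
  have h2 : ∑ k, W k * f k < ∑ k, W k * c := by
    apply Finset.sum_lt_sum
    · intro k _
      rcases (hW k).lt_or_eq with h | h
      · exact mul_le_mul_of_nonneg_left (hcon k h).le h.le
      · rw [← h]
        simp
    · have : ∃ k, 0 < W k := by
        by_contra hno
        push Not at hno
        have h3 : ∑ k, W k ≤ 0 := Finset.sum_nonpos (fun k _ => hno k)
        linarith
      obtain ⟨k, hk⟩ := this
      exact ⟨k, Finset.mem_univ _, mul_lt_mul_of_pos_left (hcon k hk) hk⟩
  rw [← Finset.sum_mul, h1, one_mul, ← hc] at h2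
  exact lt_irrefl _ h2

omit [Fintype ι] in
theorem sum_W (p : V → L → ℝ) (hp1 : ∀ x, ∑ a, p x a = 1) :
    ∑ σ : V → L, ∏ x, p x (σ x) = 1 := by
  have h := Finset.prod_univ_sum (fun _ : V => (univ : Finset L)) p
  rw [Fintype.piFinset_univ] at h
  rw [← h]
  exact Finset.prod_eq_one fun x _ => hp1 x

omit [Fintype ι] in
theorem sum_W_two (p : V → L → ℝ) (hp1 : ∀ x, ∑ a, p x a = 1) (u v : V) (huv : u ≠ v) (a b : L) :
    ∑ σ : V → L, (∏ x, p x (σ x)) * ((if σ u = a then 1 else 0) * (if σ v = b then 1 else 0)) =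
      p u a * p v b := by
  have h := Finset.prod_univ_sum (fun _ : V => (univ : Finset L)) (fun x c => p x c *
    ((if x = u then (if c = a then (1 : ℝ) else 0) else 1) *
      (if x = v then (if c = b then (1 : ℝ) else 0) else 1)))
  rw [Fintype.piFinset_univ] at h
  have h1 : ∀ σ : V → L, (∏ x, p x (σ x)) *
      ((if σ u = a then 1 else 0) * (if σ v = b then 1 else 0)) =
      ∏ x, (p x (σ x) * ((if x = u then (if σ x = a then (1 : ℝ) else 0) else 1) *
      (if x = v then (if σ x = b then (1 : ℝ) else 0) else 1))) := by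
    intro σ
    rw [Finset.prod_mul_distrib, Finset.prod_mul_distrib, Finset.prod_ite_eq', Finset.prod_ite_eq']
    simp
  rw [Finset.sum_congr rfl fun σ _ => h1 σ, ← h]
  have h2 : ∀ x : V, (∑ c, p x c * ((if x = u then (if c = a then (1 : ℝ) else 0) else 1) *
      (if x = v then (if c = b then (1 : ℝ) else 0) else 1))) =
      (if x = u then p x a else 1) * (if x = v then p x b else 1) := by
    intro x
    by_cases hu : x = u
    · have hv : x ≠ v := fun hv => huv (hu ▸ hv)
      simp [hu, huv]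
    · by_cases hv : x = v
      · simp [hv, huv.symm]
      · simp [hu, hv, hp1 x]
  rw [Finset.prod_congr rfl fun x _ => h2 x, Finset.prod_mul_distrib, Finset.prod_ite_eq',
    Finset.prod_ite_eq']
  simp

omit [Fintype V] [DecidableEq V] [Fintype ι] in
theorem ite_pair (g : Equiv.Perm L) (c d : L) :
    (if g c = d then (1 : ℝ) else 0) = ∑ a, ((if c = a then 1 else 0) * (if d = g a then 1 else 0)) := by
  simp only [ite_mul, one_mul, zero_mul]
  rw [Finset.sum_ite_eq]
  simp [eq_comm]

end RoundAux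

theorem prod_round (perm : ι → Equiv.Perm L) (hst : ∀ e, s e ≠ t e) (p : V → L → ℝ)
    (hp0 : ∀ x a, 0 ≤ p x a) (hp1 : ∀ x, ∑ a, p x a = 1) :
    ∃ y : V → L, ∑ e, w e * ∑ a, p (s e) a * p (t e) (perm e a) ≤ P325F.sat s t perm w y := by
  have hW0 : ∀ σ : V → L, 0 ≤ ∏ x, p x (σ x) := fun σ => Finset.prod_nonneg fun x _ => hp0 x _
  obtain ⟨y, _, hy⟩ := RoundAux.avg_attained (fun σ : V → L => ∏ x, p x (σ x))
    (P325F.sat s t perm w) hW0 (RoundAux.sum_W p hp1)
  refine ⟨y, le_trans (le_of_eq ?_) hy⟩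
  have h1 : ∀ σ : V → L, (∏ x, p x (σ x)) * P325F.sat s t perm w σ =
      ∑ e, w e * ∑ a, (∏ x, p x (σ x)) *
        ((if σ (s e) = a then 1 else 0) * (if σ (t e) = perm e a then 1 else 0)) := by
    intro σ
    unfold P325F.sat Good
    rw [Finset.mul_sum]
    refine Finset.sum_congr rfl fun e _ => ?_
    rw [← Finset.mul_sum, ← RoundAux.ite_pair]
    split_ifs <;> ring
  rw [Finset.sum_congr rfl fun σ _ => h1 σ, Finset.sum_comm]
  refine Finset.sum_congr rfl fun e _ => ?_
  rw [← Finset.mul_sum]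
  congr 1
  rw [Finset.sum_comm]
  refine Finset.sum_congr rfl fun a _ => ?_
  exact (RoundAux.sum_W_two p hp1 (s e) (t e) (hst e) a (perm e a)).symm

theorem round_indep (perm : ι → Equiv.Perm L) (hst : ∀ e, s e ≠ t e)
    {E : ((V → L) → ℝ) →ₗ[ℝ] ℝ} {r : ℕ} (hE : IsPseudoExpectation r E) {κ : Type} [Fintype κ]
    {P : κ → (V → L) → ℝ} {D : Finset V} (hP : IsPart P D) (hD : D.card + 2 ≤ r) :
    ∃ y : V → L, ∑ e, w e * E (P325u.sat (s e) (t e) (perm e)) -
      ∑ e, w e * ∑ a, cov E P (ind (s e) a) (ind (t e) (perm e a)) ≤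
        P325F.sat s t perm w y := by
  have hp0 : ∀ α, 0 ≤ E (P α) := fun α => hP.E_nonneg hE (by omega) α
  obtain ⟨α, hα, hobj⟩ := RoundAux.avg_attained (fun α => E (P α))
    (fun α => ∑ e, w e * ∑ a, (E (P α * ind (s e) a) / E (P α)) *
      (E (P α * ind (t e) (perm e a)) / E (P α))) hp0 (hP.sum_E hE)
  have hind0 : ∀ x b, 0 ≤ E (P α * ind x b) := by
    intro x b
    apply hP.E_two_nonneg hE hD α x x
    · intro σ σ' h1 _
      unfold ind
      rw [h1]
    · exact ind_nonneg x b
  have hsum1 : ∀ x, ∑ a, E (P α * ind x a) / E (P α) = 1 := by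
    intro x
    have h1 : ∑ b, E (P α * ind x b) = E (P α) := by
      rw [← map_sum, ← Finset.mul_sum]
      congr 1
      funext σ
      rw [Pi.mul_apply, Finset.sum_apply, sum_ind, mul_one]
    rw [← Finset.sum_div, h1, div_self hα.ne']
  obtain ⟨y, hy⟩ := prod_round (w := w) perm hst (fun x a => E (P α * ind x a) / E (P α))
    (fun x a => div_nonneg (hind0 x a) hα.le) hsum1
  refine ⟨y, le_trans (le_trans (le_of_eq ?_) hobj) hy⟩
  have h1 : ∀ α : κ, E (P α) * (∑ e, w e * ∑ a, (E (P α * ind (s e) a) / E (P α)) *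
      (E (P α * ind (t e) (perm e a)) / E (P α))) =
      ∑ e, w e * ∑ a, E (P α * ind (s e) a) * E (P α * ind (t e) (perm e a)) / E (P α) := by
    intro α
    rw [Finset.mul_sum]
    refine Finset.sum_congr rfl fun e _ => ?_
    rw [← mul_assoc, mul_comm (E (P α)) (w e), mul_assoc, Finset.mul_sum]
    congr 1
    refine Finset.sum_congr rfl fun a _ => ?_
    by_cases h0 : E (P α) = 0
    · rw [h0]
      simp
    · field_simp
  rw [Finset.sum_congr rfl fun α _ => h1 α, Finset.sum_comm, ← Finset.sum_sub_distrib]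
  refine Finset.sum_congr rfl fun e _ => ?_
  rw [← Finset.mul_sum, ← mul_sub]
  congr 1
  rw [Finset.sum_comm]
  have h2 : E (P325u.sat (s e) (t e) (perm e)) =
      ∑ a, E (ind (s e) a * ind (t e) (perm e a)) := by
    rw [← map_sum]
    congr 1
    funext σ
    rw [Finset.sum_apply]
    simp only [Pi.mul_apply, P325u.sat, ind]
    exact RoundAux.ite_pair (perm e) (σ (s e)) (σ (t e))
  rw [h2, ← Finset.sum_sub_distrib]
  refine Finset.sum_congr rfl fun a _ => ?_
  unfold cov
  rw [Finset.sum_sub_distrib]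
  have h3 : ∑ α, E (P α * ind (s e) a * ind (t e) (perm e a)) =
      E (ind (s e) a * ind (t e) (perm e a)) := by
    simp_rw [mul_assoc]
    exact hP.sum_mul _
  rw [h3]
  ring

end Pool.Agent.Lib.P325F
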