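import Pool.Agent.Lib.P325F.Corr
import Pool.Agent.Lib.P325F.Cond
import Pool.Agent.Lib.P325F.Round

/-!
# The sum of squares lemma

Let `w ≥ 0` with `trace (MM^(2J)) ≤ Q`. If `∑ w = 0` all `w e = 0` and any labelling will do. Otherwise `μ x = dg x/(2 ∑ w)` has sum `1`.
`R = ⌈Q * τ⁻¹^(2J)⌉₊ ≥ 1`, `R < Q τ⁻¹^(2J) + 1`, so `R + 2 ≤ r`. Take `P` from `exists_corr`; `C p q = cov E P (ind p.1 p.2) (ind q.1 q.2)`, `κ q = E (ind q.1 q.2)`;
`corr_le` and `round_indep`.
-/

set_option autoImplicit false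

open Finset Matrix Pool.Agent.Lib.P325u

namespace Pool.Agent.Lib.P325F

variable {V ι L : Type} [Fintype V] [DecidableEq V] [Fintype ι] [Fintype L] [DecidableEq L]
  {s t : ι → V}

theorem sos_of_pe (perm : ι → Equiv.Perm L) (hst : ∀ e, s e ≠ t e)
    {E : ((V → L) → ℝ) →ₗ[ℝ] ℝ} {r : ℕ} (hE : IsPseudoExpectation r E) {J : ℕ}
    (hJ : J = 1 ∨ Even J) (hJ0 : 0 < J) {Q τ : ℝ} (hQ : 1 ≤ Q) (hτ : 0 < τ)
    (hr : Q * τ⁻¹ ^ (2 * J) + 3 ≤ r) :
    SOS s t perm (fun e => E (P325u.sat (s e) (t e) (perm e))) J Q τ := by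
  intro w hw htr
  set m : ℝ := ∑ e, w e with hm
  rcases (Finset.sum_nonneg (fun e _ => hw e) : 0 ≤ ∑ e, w e).lt_or_eq with hpos | hzero
  · -- the main case
    set μ : V → ℝ := fun x => dg s t w x / (2 * m) with hμdef
    have hμ0 : ∀ x, 0 ≤ μ x := fun x => div_nonneg (dg_nonneg hw x) (by linarith)
    have hμ1 : ∑ x, μ x = 1 := by
      rw [hμdef]
      rw [← Finset.sum_div, sum_dg]
      exact div_self (by linarith)
    have hτJ : 0 < τ⁻¹ ^ (2 * J) := by positivity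
    have hQτ : 0 < Q * τ⁻¹ ^ (2 * J) := by positivity
    set R : ℕ := ⌈Q * τ⁻¹ ^ (2 * J)⌉₊ with hR
    have hR0 : 0 < R := Nat.ceil_pos.2 hQτ
    have hR1 : Q * τ⁻¹ ^ (2 * J) ≤ R := Nat.le_ceil _
    have hR2 : (R : ℝ) < Q * τ⁻¹ ^ (2 * J) + 1 := Nat.ceil_lt_add_one hQτ.le
    have hRr : R + 2 ≤ r := by
      have : (R : ℝ) + 2 ≤ r := by linarith
      exact_mod_cast this
    obtain ⟨κ, _, P, D, hP, hD, hcorr⟩ := exists_corr hE μ hμ0 hμ1 hR0 hRr
    have hle := corr_le (s := s) (t := t) perm hw hpos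
      (C := fun p q => cov E P (ind p.1 p.2) (ind q.1 q.2))
      (fun p q => cov_comm _ _) (cov_psd hE hP (by omega))
      (by
        have := avVar_le_one hE hP (by omega) μ hμ0 hμ1
        exact this)
      (κ := fun q => E (ind q.1 q.2)) (fun q => E_ind_nonneg hE (by omega) _ _)
      (fun x => sum_E_ind hE x)
      (fun p q h => cov_null hE hP hD p.1 q.1 p.2 q.2 h) hJ hJ0 hτ htr
      (by
        have h1 : (∑ x, ∑ a, ∑ y, ∑ b, dg s t w x / (2 * ∑ e, w e) *
            (dg s t w y / (2 * ∑ e, w e)) *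
            (cov E P (ind x a) (ind y b) ^ 2 / E (ind y b))) * Q ≤ 1 / R * Q :=
          mul_le_mul_of_nonneg_right hcorr (by linarith)
        refine h1.trans ?_
        have hRpos : (0 : ℝ) < R := by exact_mod_cast hR0
        rw [div_mul_eq_mul_div, one_mul, div_le_iff₀ hRpos]
        have h2 : Q * τ⁻¹ ^ (2 * J) * τ ^ (2 * J) ≤ R * τ ^ (2 * J) :=
          mul_le_mul_of_nonneg_right hR1 (by positivity)
        rw [mul_assoc, ← mul_pow, inv_mul_cancel₀ hτ.ne', one_pow, mul_one] at h2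
        linarith)
    obtain ⟨y, hy⟩ := round_indep (w := w) perm hst hE hP hD
    refine ⟨y, ?_⟩
    refine le_trans ?_ hy
    simp only at hle ⊢
    linarith
  · -- all weights are zero
    have hz : ∀ e, w e = 0 := by
      intro e
      have := (Finset.sum_eq_zero_iff_of_nonneg (fun e _ => hw e)).1 hzero.symm
      exact this e (Finset.mem_univ e)
    obtain ⟨y⟩ := nonempty_labelings hE
    refine ⟨y, ?_⟩
    unfold P325F.sat
    simp [hm, hz]

theorem pe_sat_mem (perm : ι → Equiv.Perm L) {E : ((V → L) → ℝ) →ₗ[ℝ] ℝ} {r : ℕ}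
    (hE : IsPseudoExpectation r E) (hr : 2 ≤ r) (e : ι) :
    0 ≤ E (P325u.sat (s e) (t e) (perm e)) ∧ E (P325u.sat (s e) (t e) (perm e)) ≤ 1 := by
  have hcard : ({s e, t e} : Finset V).card ≤ r := (Finset.card_le_two).trans hr
  have hdep : DependsOn (P325u.sat (s e) (t e) (perm e)) (({s e, t e} : Finset V) : Set V) := by
    intro σ σ' h
    have h1 : σ (s e) = σ' (s e) := h (s e) (by simp)
    have h2 : σ (t e) = σ' (t e) := h (t e) (by simp)
    unfold P325u.sat
    rw [h1, h2]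
  refine ⟨hE.nonneg _ _ hcard hdep ?_, ?_⟩
  · intro σ
    unfold P325u.sat
    split_ifs <;> norm_num
  · have h := hE.nonneg (fun σ => 1 - P325u.sat (s e) (t e) (perm e) σ) {s e, t e} hcard
      (by
        intro σ σ' h
        show 1 - P325u.sat (s e) (t e) (perm e) σ = 1 - P325u.sat (s e) (t e) (perm e) σ'
        rw [hdep h]) (by
        intro σ
        unfold P325u.sat
        split_ifs <;> norm_num)
    have h2 : (fun σ => 1 - P325u.sat (s e) (t e) (perm e) σ) =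
        (fun _ => (1 : ℝ)) - P325u.sat (s e) (t e) (perm e) := rfl
    rw [h2, map_sub, hE.one] at h
    linarith

end Pool.Agent.Lib.P325F
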