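import Pool.Agent.Lib.P325F.Final
import Pool.Agent.Lib.P325F.Sos
import Pool.Agent.Lib.P325x.Defs

/-!
# The theorem for bipartite unique games
-/

set_option autoImplicit false

open Finset Pool.Agent.Lib.P325u

namespace Pool.Agent.Lib.P325F

variable {U W Ω ι : Type} [Fintype ι]

theorem satFrac_le_value_F (I : P325x.Game U W Ω ι) (x : U → Ω) (y : W → Ω) :
    I.satFrac x y ≤ I.value := by
  unfold P325x.Game.value
  refine le_ciSup (f := fun p : (U → Ω) × (W → Ω) => I.satFrac p.1 p.2) ⟨1, ?_⟩ (x, y)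
  rintro _ ⟨p, rfl⟩
  unfold P325x.Game.satFrac
  refine div_le_one_of_le₀ ?_ (Nat.cast_nonneg _)
  exact_mod_cast Finset.card_le_univ _

theorem satFrac_mul_card (I : P325x.Game U W Ω ι) (hm : 0 < Fintype.card ι) (z : U ⊕ W → Ω) :
    I.satFrac (fun u => z (Sum.inl u)) (fun v => z (Sum.inr v)) * Fintype.card ι =
      sat (fun e => (Sum.inl (I.src e) : U ⊕ W)) (fun e => Sum.inr (I.dst e)) I.perm
        (fun _ => 1) z := by
  classical
  have hm' : (0 : ℝ) < Fintype.card ι := by exact_mod_cast hm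
  unfold P325x.Game.satFrac sat
  rw [div_mul_cancel₀ _ hm'.ne']
  rw [Finset.sum_ite, Finset.sum_const, Finset.sum_const_zero, add_zero, nsmul_eq_mul, mul_one]
  unfold Good
  have : ∀ (A B : DecidablePred fun e : ι => (I.perm e) (z (Sum.inl (I.src e))) =
      z (Sum.inr (I.dst e))), (@Finset.filter ι _ A univ).card =
      (@Finset.filter ι _ B univ).card := by
    intro A B
    have : A = B := Subsingleton.elim A B
    rw [this]
  exact_mod_cast this _ _

/-- Sum of squares of degree `n ^ β / δ`, `δ = (s / 4) ^ (100 / β * log (4 / β))`: a unique game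
with `n` vertices that has a pseudo-expectation of this degree of value at least `s` has value at
least `δ`. -/
theorem main_F {s β : ℝ} (hs0 : 0 < s) (hs1 : s ≤ 1) (hβ : 0 < β) (hβ1 : β ≤ 1)
    [Fintype U] [Fintype W] [Fintype Ω] (I : P325x.Game U W Ω ι) (r : ℕ)
    (E : ((U ⊕ W → Ω) → ℝ) →ₗ[ℝ] ℝ) (hE : IsPseudoExpectation r E)
    (hr : ((Fintype.card U : ℝ) + Fintype.card W) ^ β /
      (s / 4) ^ (100 / β * Real.log (4 / β)) ≤ r)
    (hval : s ≤ E (fun z => I.satFrac (fun u => z (Sum.inl u)) (fun v => z (Sum.inr v)))) :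
    (s / 4) ^ (100 / β * Real.log (4 / β)) ≤ I.value := by
  classical
  have hm : 0 < Fintype.card ι := by
    by_contra hcon
    have h0 : Fintype.card ι = 0 := by omega
    have h1 : (fun z : U ⊕ W → Ω =>
        I.satFrac (fun u => z (Sum.inl u)) (fun v => z (Sum.inr v))) = 0 := by
      funext z
      unfold P325x.Game.satFrac
      rw [h0]
      simp
    rw [h1, map_zero] at hval
    linarith
  have hm' : (0 : ℝ) < Fintype.card ι := by exact_mod_cast hm
  obtain ⟨e0⟩ : Nonempty ι := Fintype.card_pos_iff.1 hm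
  set n : ℝ := (Fintype.card U : ℝ) + Fintype.card W with hn
  have hcard : (Fintype.card (U ⊕ W) : ℝ) = n := by
    rw [Fintype.card_sum, hn]; push_cast; ring
  have hn1 : 1 ≤ n := by
    have : 1 ≤ Fintype.card U := Fintype.card_pos_iff.2 ⟨I.src e0⟩
    have h2 : (1 : ℝ) ≤ Fintype.card U := by exact_mod_cast this
    have h3 : (0 : ℝ) ≤ Fintype.card W := Nat.cast_nonneg _
    linarith
  set δ : ℝ := (s / 4) ^ (100 / β * Real.log (4 / β)) with hδ
  have hexp : 0 ≤ 100 / β * Real.log (4 / β) := by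
    apply mul_nonneg (by positivity)
    apply Real.log_nonneg
    rw [le_div_iff₀ hβ]
    linarith
  have hδ0 : 0 < δ := Real.rpow_pos_of_pos (by linarith) _
  have hlog : 1 ≤ Real.log (4 / β) := by
    have h4 : (4 : ℝ) ≤ 4 / β := by
      rw [le_div_iff₀ hβ]
      nlinarith
    have h5 : Real.exp 1 ≤ 4 / β := by
      have := Real.exp_one_lt_d9
      linarith
    calc (1 : ℝ) = Real.log (Real.exp 1) := (Real.log_exp 1).symm
      _ ≤ _ := Real.log_le_log (Real.exp_pos 1) h5
  have hexp1 : 1 ≤ 100 / β * Real.log (4 / β) := by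
    have h6 : (1 : ℝ) ≤ 100 / β := by
      rw [le_div_iff₀ hβ]
      linarith
    nlinarith
  have hδ4 : δ ≤ 1 / 4 := by
    calc δ ≤ (s / 4) ^ (1 : ℝ) :=
          Real.rpow_le_rpow_of_exponent_ge (by linarith) (by linarith) hexp1
      _ = s / 4 := Real.rpow_one _
      _ ≤ 1 / 4 := by linarith
  have hr2 : 2 ≤ r := by
    have h7 : 1 ≤ n ^ β := Real.one_le_rpow hn1 hβ.le
    have h8 : 4 ≤ n ^ β / δ := by
      rw [le_div_iff₀ hδ0]
      linarith
    have h9 : (4 : ℝ) ≤ r := h8.trans hr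
    have : (4 : ℕ) ≤ r := by exact_mod_cast h9
    omega
  have hval' : s * Fintype.card ι ≤ ∑ e, E (P325u.sat (Sum.inl (I.src e) : U ⊕ W)
      (Sum.inr (I.dst e)) (I.perm e)) := by
    have h1 : (fun z : U ⊕ W → Ω =>
        I.satFrac (fun u => z (Sum.inl u)) (fun v => z (Sum.inr v))) =
        (Fintype.card ι : ℝ)⁻¹ • ∑ e, P325u.sat (Sum.inl (I.src e) : U ⊕ W)
          (Sum.inr (I.dst e)) (I.perm e) := by
      funext z
      have h2 := satFrac_mul_card I hm z
      rw [Pi.smul_apply, Finset.sum_apply, smul_eq_mul, ← div_eq_inv_mul, eq_div_iff hm'.ne', h2]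
      unfold sat P325u.sat Good
      apply Finset.sum_congr rfl
      intro e _
      by_cases hc : I.perm e (z (Sum.inl (I.src e))) = z (Sum.inr (I.dst e))
      · simp only [hc, if_true]
      · simp only [hc, if_false]
    rw [h1, map_smul, map_sum, smul_eq_mul, ← div_eq_inv_mul, le_div_iff₀ hm'] at hval
    exact hval
  have hJ : ∀ q : ℕ, (2 ^ q = 1 ∨ Even (2 ^ q)) ∧ 0 < 2 ^ q := by
    intro q
    refine ⟨?_, by positivity⟩
    rcases Nat.eq_zero_or_pos q with h0 | h0
    · left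
      rw [h0, pow_zero]
    · right
      exact (Nat.even_pow.2 ⟨even_two, h0.ne'⟩)
  obtain ⟨z, hz⟩ := final (s := fun e => (Sum.inl (I.src e) : U ⊕ W))
    (t := fun e => Sum.inr (I.dst e)) (nonempty_labelings hE) I.perm
    (f := fun e => E (P325u.sat (Sum.inl (I.src e) : U ⊕ W) (Sum.inr (I.dst e)) (I.perm e)))
    (fun e => (pe_sat_mem (s := fun e => (Sum.inl (I.src e) : U ⊕ W))
      (t := fun e => Sum.inr (I.dst e)) I.perm hE hr2 e).1)
    (fun e => (pe_sat_mem (s := fun e => (Sum.inl (I.src e) : U ⊕ W))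
      (t := fun e => Sum.inr (I.dst e)) I.perm hE hr2 e).2) hs0 hs1 hβ hβ1 (D := r)
    (by rw [hcard]; exact hr)
    (fun q Q τ hQ hτ hD => sos_of_pe I.perm (fun e => Sum.inl_ne_inr) hE (hJ q).1 (hJ q).2 hQ hτ
      (by linarith)) hval'
  rw [← satFrac_mul_card I hm z] at hz
  have h10 := le_of_mul_le_mul_right hz hm'
  exact h10.trans (satFrac_le_value_F I _ _)

end Pool.Agent.Lib.P325F
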