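import Pool.Agent.Lib.P325F.Decomp
import Pool.Agent.Lib.P325F.Glue

/-!
# Module Rec (2.5 h): the recursion

Put `Φ N = σ/8 * N^(-p)`.
`scale`: for `U ≥ Q`: `(√U/16)^p ≥ 128 U^(Γ-1)`. Indeed `U^(1/4) ≥ 16`, so `√U/16 ≥ U^(1/4)`, `(√U/16)^p ≥ U^(p/4)` and
`p/4 - (Γ-1) ≥ 5/log Q`, `U^(p/4) = U^(Γ-1) U^(p/4-(Γ-1)) ≥ U^(Γ-1) Q^(5/log Q) = U^(Γ-1) e^5`, `e^5 ≥ 128`.
`rec_bound`: strong induction on `N` (for all `w`). Let `m = ∑ w`; `m = 0`: any labelling. Let `m > 0`; take `R, S, U` from `decomp`.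
* `m/4 ≤ ∑ ins R` (so it is not zero and the trace bound holds): `SOS` for `ins R` gives `x` with
  `sat w x ≥ sat (ins R) x ≥ ∑ ins R * f - τ ∑ ins R ≥ (σ - τ) ∑ ins R ≥ (σ/2) (m/4) ≥ Φ N * m` (`ins R e * f e ≥ σ * ins R e` as `w e = 0` or `f e ≥ σ`; `N^(-p) ≤ 1`).
* `∑ ins R < m/4`: `m ≤ ∑ i, 128 (U i)^(Γ-1) W i`, where `W i = ∑ e, ins (S i) e`. For each `i` there is `x i` with `Φ N * 128 (U i)^(Γ-1) W i ≤ sat (ins (S i)) (x i)`:
  if `S i = ∅` then `W i = 0`; otherwise `n' = card (S i) ≥ 1`, `n' ≤ 16 N/√(U i) < N` (`√(U i) ≥ 256`), the non-isolated vertices of `ins (S i)` are in `S i`,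
  the induction hypothesis (`log (8 n') ≤ log (8 N)`) gives `Φ n' * W i ≤ sat (ins (S i)) (x i)`, and `n'^(-p) ≥ (16 N/√(U i))^(-p) = N^(-p) (√(U i)/16)^p ≥ N^(-p) 128 (U i)^(Γ-1)`
  by `scale`. Sum over `i` and `glue`.
-/

set_option autoImplicit false

open Finset Matrix

namespace Pool.Agent.Lib.P325F

theorem scale {Q Γ p U : ℝ} (hQ : 65536 ≤ Q) (hΓ : 1 ≤ Γ)
    (hp : 4 * (Γ - 1) + 20 / Real.log Q ≤ p) (hU : Q ≤ U) :
    128 * U ^ (Γ - 1) ≤ (√U / 16) ^ p := by
  have hQ0 : 0 < Q := by linarith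
  have hU0 : 0 < U := by linarith
  have hlog : 0 < Real.log Q := Real.log_pos (by linarith)
  have hp0 : 0 ≤ p := by
    have : 0 ≤ 20 / Real.log Q := by positivity
    linarith
  have h16 : (16 : ℝ) ≤ U ^ (1 / 4 : ℝ) := by
    have h1 : (65536 : ℝ) ^ (1 / 4 : ℝ) ≤ U ^ (1 / 4 : ℝ) :=
      Real.rpow_le_rpow (by norm_num) (by linarith) (by norm_num)
    have h2 : (65536 : ℝ) ^ (1 / 4 : ℝ) = 16 := by
      rw [show (65536 : ℝ) = (16 : ℝ) ^ (4 : ℝ) by
        rw [show (4 : ℝ) = ((4 : ℕ) : ℝ) by norm_num, Real.rpow_natCast]; norm_num]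
      rw [← Real.rpow_mul (by norm_num)]
      norm_num
    linarith
  have hs : √U = U ^ (1 / 4 : ℝ) * U ^ (1 / 4 : ℝ) := by
    rw [← Real.rpow_add hU0, Real.sqrt_eq_rpow]
    norm_num
  have h1 : U ^ (1 / 4 : ℝ) ≤ √U / 16 := by
    rw [hs, le_div_iff₀ (by norm_num : (0 : ℝ) < 16)]
    exact mul_le_mul_of_nonneg_left h16 (by positivity)
  have h2 : (U ^ (1 / 4 : ℝ)) ^ p ≤ (√U / 16) ^ p :=
    Real.rpow_le_rpow (by positivity) h1 hp0
  have h3 : (U ^ (1 / 4 : ℝ)) ^ p = U ^ (p / 4) := by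
    rw [← Real.rpow_mul hU0.le]
    congr 1
    ring
  have h4 : U ^ ((Γ - 1) + 5 / Real.log Q) ≤ U ^ (p / 4) := by
    apply Real.rpow_le_rpow_of_exponent_le (by linarith)
    have : 20 / Real.log Q = 4 * (5 / Real.log Q) := by ring
    linarith
  have h5 : Q ^ (5 / Real.log Q) ≤ U ^ (5 / Real.log Q) :=
    Real.rpow_le_rpow hQ0.le hU (by positivity)
  have h6 : Q ^ (5 / Real.log Q) = Real.exp 5 := by
    rw [Real.rpow_def_of_pos hQ0]
    congr 1
    field_simp
  have h7 : (128 : ℝ) ≤ Real.exp 5 := by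
    have h8 : Real.exp 5 = Real.exp 1 ^ 5 := by
      rw [← Real.exp_nat_mul]
      norm_num
    rw [h8]
    have h9 : (2.7 : ℝ) ≤ Real.exp 1 := by
      have := Real.exp_one_gt_d9
      linarith
    calc (128 : ℝ) ≤ 2.7 ^ 5 := by norm_num
      _ ≤ Real.exp 1 ^ 5 := by gcongr
  calc 128 * U ^ (Γ - 1) ≤ U ^ (5 / Real.log Q) * U ^ (Γ - 1) := by
        apply mul_le_mul_of_nonneg_right _ (by positivity)
        linarith
    _ = U ^ ((Γ - 1) + 5 / Real.log Q) := by
        rw [Real.rpow_add hU0, mul_comm]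
    _ ≤ U ^ (p / 4) := h4
    _ = (U ^ (1 / 4 : ℝ)) ^ p := h3.symm
    _ ≤ (√U / 16) ^ p := h2

variable {V ι : Type} [Fintype V] [DecidableEq V] [Fintype ι] {s t : ι → V}

theorem rec_bound {L : Type} (hL : Nonempty (V → L)) (perm : ι → Equiv.Perm L) {f : ι → ℝ}
    {J : ℕ} (hJ : 0 < J) {Q Γ p σ τ : ℝ} (hQ : 65536 ≤ Q) (hΓ : 1 ≤ Γ) (hΓ2 : Γ ≤ 3 / 2)
    (hp : 4 * (Γ - 1) + 20 / Real.log Q ≤ p) (hσ : 0 < σ) (hτ : 2 * τ ≤ σ)
    (hsos : SOS s t perm f J Q τ) (N : ℕ) (hN1 : 1 ≤ N)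
    (hΓQ : Real.log (8 * N) ≤ Γ ^ J * Real.log Q) (w : ι → ℝ) (hw : ∀ e, 0 ≤ w e)
    (hf : ∀ e, w e ≠ 0 → σ ≤ f e) (hN : (univ.filter fun x => 0 < dg s t w x).card ≤ N) :
    ∃ x : V → L, σ / 8 * (N : ℝ) ^ (-p) * ∑ e, w e ≤ sat s t perm w x := by
  classical
  have hlog : 0 < Real.log Q := Real.log_pos (by linarith)
  have hp0 : 0 ≤ p := by
    have : 0 ≤ 20 / Real.log Q := by positivity
    linarith
  induction N using Nat.strong_induction_on generalizing w with
  | _ N IH =>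
  have hNr : (1 : ℝ) ≤ (N : ℝ) := by exact_mod_cast hN1
  have hN0 : (0 : ℝ) < (N : ℝ) := by linarith
  have hm0 : 0 ≤ ∑ e, w e := Finset.sum_nonneg fun e _ => hw e
  rcases hm0.eq_or_lt with hm | hm
  · obtain ⟨x⟩ := hL
    refine ⟨x, ?_⟩
    rw [← hm, mul_zero]
    exact sat_nonneg perm hw x
  have hins0 : ∀ S : Finset V, ∀ e, 0 ≤ ins s t w S e := by
    intro S e
    unfold ins
    split_ifs
    · exact hw e
    · exact le_rfl
  have hinsle : ∀ S : Finset V, ∀ e, ins s t w S e ≤ w e := by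
    intro S e
    unfold ins
    split_ifs
    · exact le_rfl
    · exact hw e
  have hinsne : ∀ S : Finset V, ∀ e, ins s t w S e ≠ 0 → w e ≠ 0 := by
    intro S e h h0
    apply h
    unfold ins
    split_ifs
    · exact h0
    · rfl
  obtain ⟨R, k, S, U, hdisj, hU, hcard, htr, hsum⟩ := decomp (s := s) (t := t) hw hNr
    (by exact_mod_cast hN) hJ (by linarith : (256 : ℝ) ≤ Q) hΓ hΓ2 hΓQ
  by_cases hR : (∑ e, w e) / 4 ≤ ∑ e, ins s t w R e
  · have hRne : ∑ e, ins s t w R e ≠ 0 := by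
      intro h
      rw [h] at hR
      linarith
    have htr' := htr.resolve_left hRne
    obtain ⟨x, hx⟩ := hsos (ins s t w R) (hins0 R) htr'
    refine ⟨x, ?_⟩
    have h1 : sat s t perm (ins s t w R) x ≤ sat s t perm w x := sat_mono perm (hinsle R) x
    have h2 : σ * ∑ e, ins s t w R e ≤ ∑ e, ins s t w R e * f e := by
      rw [Finset.mul_sum]
      apply Finset.sum_le_sum
      intro e _
      by_cases he : ins s t w R e = 0
      · rw [he]
        simp
      · have := hf e (hinsne R e he)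
        rw [mul_comm]
        exact mul_le_mul_of_nonneg_left this (hins0 R e)
    have h3 : (N : ℝ) ^ (-p) ≤ 1 :=
      Real.rpow_le_one_of_one_le_of_nonpos hNr (by linarith)
    have h4 : σ / 8 * (N : ℝ) ^ (-p) * ∑ e, w e ≤ σ / 8 * 1 * ∑ e, w e := by
      gcongr
    have h5 : σ / 2 * ((∑ e, w e) / 4) ≤ (σ - τ) * ∑ e, ins s t w R e := by
      apply mul_le_mul (by linarith) hR (by positivity) (by linarith)
    have h6 : (σ - τ) * ∑ e, ins s t w R e =
        σ * ∑ e, ins s t w R e - τ * ∑ e, ins s t w R e := by ring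
    linarith
  · push Not at hR
    have hm2 : ∑ e, w e ≤ ∑ i, 128 * U i ^ (Γ - 1) * ∑ e, ins s t w (S i) e := by
      have h1 : ∑ i, 128 * U i ^ (Γ - 1) * ∑ e, ins s t w (S i) e =
          2 * ∑ i, 64 * U i ^ (Γ - 1) * ∑ e, ins s t w (S i) e := by
        rw [Finset.mul_sum]
        apply Finset.sum_congr rfl
        intro i _
        ring
      rw [h1]
      linarith
    have hex : ∀ i, ∃ x : V → L, σ / 8 * (N : ℝ) ^ (-p) *
        (128 * U i ^ (Γ - 1) * ∑ e, ins s t w (S i) e) ≤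
          sat s t perm (ins s t w (S i)) x := by
      intro i
      have hUQ : Q ≤ U i := (hU i).le
      have hU0 : 0 < U i := by linarith
      rcases (S i).eq_empty_or_nonempty with hSe | hSne
      · obtain ⟨x⟩ := hL
        refine ⟨x, ?_⟩
        have h0 : ∑ e, ins s t w (S i) e = 0 := by
          apply Finset.sum_eq_zero
          intro e _
          unfold ins
          rw [hSe]
          simp
        rw [h0, mul_zero, mul_zero]
        exact sat_nonneg perm (hins0 (S i)) x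
      · have hc1 : 1 ≤ (S i).card := Finset.card_pos.mpr hSne
        have hc1r : (1 : ℝ) ≤ ((S i).card : ℝ) := by exact_mod_cast hc1
        have hsq : (256 : ℝ) ≤ √(U i) := by
          apply Real.le_sqrt_of_sq_le
          linarith
        have hsq0 : 0 < √(U i) := by linarith
        have hlt : ((S i).card : ℝ) < (N : ℝ) := by
          refine lt_of_le_of_lt (hcard i) ?_
          rw [div_lt_iff₀ hsq0]
          nlinarith
        have hltn : (S i).card < N := by exact_mod_cast hlt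
        obtain ⟨x, hx⟩ := IH (S i).card hltn hc1 (by
            refine le_trans ?_ hΓQ
            apply Real.log_le_log (by positivity)
            linarith) (ins s t w (S i)) (hins0 (S i))
          (fun e he => hf e (hinsne (S i) e he)) (by
            apply Finset.card_le_card
            intro v hv
            simp only [Finset.mem_filter, Finset.mem_univ, true_and] at hv
            by_contra hvS
            have h0 : dg s t (ins s t w (S i)) v = 0 := by
              unfold dg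
              apply Finset.sum_eq_zero
              intro e _
              unfold ins
              by_cases he : s e ∈ S i ∧ t e ∈ S i
              · have h1 : s e ≠ v := fun h => hvS (h ▸ he.1)
                have h2 : t e ≠ v := fun h => hvS (h ▸ he.2)
                simp [h1, h2]
              · simp [he]
            linarith)
        refine ⟨x, le_trans ?_ hx⟩
        have hW : 0 ≤ ∑ e, ins s t w (S i) e := Finset.sum_nonneg fun e _ => hins0 (S i) e
        have hkey : (N : ℝ) ^ (-p) * (128 * U i ^ (Γ - 1)) ≤ ((S i).card : ℝ) ^ (-p) := by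
          have h1 : (16 * (N : ℝ) / √(U i)) ^ (-p) ≤ ((S i).card : ℝ) ^ (-p) :=
            Real.rpow_le_rpow_of_nonpos (by linarith) (hcard i) (by linarith)
          have h2 : (16 * (N : ℝ) / √(U i)) ^ (-p) = (N : ℝ) ^ (-p) * (√(U i) / 16) ^ p := by
            have h3 : 16 * (N : ℝ) / √(U i) = (N : ℝ) * (√(U i) / 16)⁻¹ := by
              rw [inv_div]
              ring
            rw [h3, Real.mul_rpow hN0.le (by positivity), Real.inv_rpow (by positivity),
              Real.rpow_neg (by positivity) p, Real.rpow_neg (by positivity) p, inv_inv]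
          have h4 := scale hQ hΓ hp hUQ
          calc (N : ℝ) ^ (-p) * (128 * U i ^ (Γ - 1))
              ≤ (N : ℝ) ^ (-p) * (√(U i) / 16) ^ p :=
                mul_le_mul_of_nonneg_left h4 (by positivity)
            _ = (16 * (N : ℝ) / √(U i)) ^ (-p) := h2.symm
            _ ≤ ((S i).card : ℝ) ^ (-p) := h1
        calc σ / 8 * (N : ℝ) ^ (-p) * (128 * U i ^ (Γ - 1) * ∑ e, ins s t w (S i) e)
            = σ / 8 * ((N : ℝ) ^ (-p) * (128 * U i ^ (Γ - 1))) * ∑ e, ins s t w (S i) e := by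
              ring
          _ ≤ σ / 8 * ((S i).card : ℝ) ^ (-p) * ∑ e, ins s t w (S i) e := by
              gcongr
    choose x hx using hex
    obtain ⟨y, hy⟩ := glue hL perm hw S hdisj x
    refine ⟨y, le_trans ?_ hy⟩
    calc σ / 8 * (N : ℝ) ^ (-p) * ∑ e, w e
        ≤ σ / 8 * (N : ℝ) ^ (-p) *
          ∑ i, 128 * U i ^ (Γ - 1) * ∑ e, ins s t w (S i) e := by
          apply mul_le_mul_of_nonneg_left hm2 (by positivity)
      _ = ∑ i, σ / 8 * (N : ℝ) ^ (-p) *
          (128 * U i ^ (Γ - 1) * ∑ e, ins s t w (S i) e) := by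
          rw [Finset.mul_sum]
      _ ≤ ∑ i, sat s t perm (ins s t w (S i)) (x i) := by
          apply Finset.sum_le_sum
          intro i _
          exact hx i

end Pool.Agent.Lib.P325F
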