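import Pool.Agent.Lib.P325F.Heat
import Pool.Agent.Lib.P325F.Layer

/-!
# Module SmallSet (2 h): a small set with many inner edges

`m = ∑ w`, `M = MM s t w`, `π x = dg x / (2m)`. Take `h` from `heat`; `h' = M h`, `u = h ⬝ᵥ h`, `U = h' ⬝ᵥ h'`, so `Q < U ≤ u` (`contr`),
`u ≤ U^Γ`, hence `r := √U / √u ≥ U^((1-Γ)/2)`. `h' ≥ 0`, `∑ √(π x) h' x = 1` (`M` symmetric and fixes `√dg`).
`H x = h x / √u + h' x / √U ≥ 0`, `G x = H x / √(π x)` (zero where `dg x = 0`). Then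
* `∑ x, π x * G x = 1/√u + 1/√U ≤ 2/√U` (`π x * (H x/√(π x)) = √(π x) * H x`, as `H x = 0` where `π x = 0`);
* `H ⬝ᵥ H ≤ 4` (`(a+b)^2 ≤ 2a^2+2b^2`); `H ⬝ᵥ (M *ᵥ H) ≥ 2 (h' ⬝ᵥ (M *ᵥ h)) / (√u √U) = 2 √U/√u = 2 r` (all terms nonnegative, `M` symmetric);
* `∑ e, w e * (G_s G_t) = m * (H ⬝ᵥ (M *ᵥ H)) ≥ 2 r m` by `bil` (`1/√(π x) = √(2m)/√(dg x)`), `∑ e, w e * (G_s^2 + G_t^2) ≤ 2m (H ⬝ᵥ H) ≤ 8 m` (`dot_ge`),
  `∑ e, w e * (G_s + G_t) = ∑ x, dg x * G x = 2m ∑ π G ≤ 4m/√U` (`sum_dg_mul`).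
Let `F x = max (G x - 1) 0`. `G_s G_t - F_s F_t ≤ G_s + G_t` (`G = F + min G 1`: `= min(G_s,1) G_t + F_s min(G_t,1) ≤ G_t + G_s`), so
`∑ w F_s F_t ≥ 2 r m - 4 m/√U ≥ r m` because `r ≥ 4/√U` (`U^((1-Γ)/2) ≥ 4 U^(-1/2)` iff `U^(1-Γ/2) ≥ 4`, true as `Γ ≤ 3/2`, `U ≥ 256`).
Let `θ = U^((1-Γ)/2) / 4`: `∑ w F_s F_t ≥ r m ≥ 4 θ m > 0` and `∑ w (F_s^2+F_t^2)/2 ≤ 4 m`. So `level` applies and gives
`S ⊆ {F > 0} = {G > 1}` with `(θ^2/2) ∑_S dg ≤ 2 ∑ ins S`, `θ^2/2 = U^(1-Γ)/32`; `∑_{x ∈ S} dg x ≤ ∑ x, dg x * G x ≤ 4 m/√U`. `x ∈ S` has `G x > 1` so `dg x > 0`.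
-/

set_option autoImplicit false

open Finset Matrix

namespace Pool.Agent.Lib.P325F

variable {V ι : Type} [Fintype V] [DecidableEq V] [Fintype ι] {s t : ι → V} {w : ι → ℝ}

namespace SmallSetAux

lemma dot_comm_M (a b : V → ℝ) : a ⬝ᵥ (MM s t w *ᵥ b) = (MM s t w *ᵥ a) ⬝ᵥ b := by
  rw [Matrix.dotProduct_mulVec]
  congr 1
  conv_rhs => rw [← MM_transpose (s := s) (t := t) (w := w)]
  rw [Matrix.mulVec_transpose]

omit [DecidableEq V] in
lemma dot_nonneg {a b : V → ℝ} (ha : ∀ x, 0 ≤ a x) (hb : ∀ x, 0 ≤ b x) : 0 ≤ a ⬝ᵥ b :=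
  Finset.sum_nonneg fun x _ => mul_nonneg (ha x) (hb x)

lemma mv_nonneg (hw : ∀ e, 0 ≤ w e) {a : V → ℝ} (ha : ∀ x, 0 ≤ a x) (x : V) :
    0 ≤ (MM s t w *ᵥ a) x :=
  Finset.sum_nonneg fun y _ => mul_nonneg (MM_nonneg hw x y) (ha y)

lemma trunc_mul {a b : ℝ} (ha : 0 ≤ a) (hb : 0 ≤ b) :
    a * b - (a + b) ≤ max (a - 1) 0 * max (b - 1) 0 := by
  rcases le_total a 1 with h1 | h1
  · rw [max_eq_right (by linarith : a - 1 ≤ 0), zero_mul]
    nlinarith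
  · rcases le_total b 1 with h2 | h2
    · rw [max_eq_right (by linarith : b - 1 ≤ 0), mul_zero]
      nlinarith
    · rw [max_eq_left (by linarith : 0 ≤ a - 1), max_eq_left (by linarith : 0 ≤ b - 1)]
      nlinarith

lemma trunc_sq {a : ℝ} (ha : 0 ≤ a) : max (a - 1) 0 ^ 2 ≤ a ^ 2 :=
  pow_le_pow_left₀ (le_max_right _ _) (max_le (by linarith) ha) 2

end SmallSetAux

open SmallSetAux

theorem small_set (hw : ∀ e, 0 ≤ w e) (hm : 0 < ∑ e, w e) {g : ℝ} (hg : 0 < g)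
    (hmin : ∀ x, 0 < dg s t w x → g ≤ dg s t w x / (2 * ∑ e, w e)) {J : ℕ} (hJ : 0 < J)
    {Q Γ : ℝ} (hQ : 256 ≤ Q) (hΓ : 1 ≤ Γ) (hΓ2 : Γ ≤ 3 / 2)
    (hΓQ : Real.log g⁻¹ ≤ Γ ^ J * Real.log Q) (htr : Q < (MM s t w ^ (2 * J)).trace) :
    ∃ (S : Finset V) (U : ℝ), Q < U ∧ (∀ x ∈ S, 0 < dg s t w x) ∧ 0 < ∑ x ∈ S, dg s t w x ∧
      ∑ x ∈ S, dg s t w x ≤ 4 * (∑ e, w e) / √U ∧
      ∑ x ∈ S, dg s t w x ≤ 64 * U ^ (Γ - 1) * ∑ e, ins s t w S e := by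
  obtain ⟨h, hh0, _, hh1, hhQ, hhr⟩ := heat hw hm hg hmin hJ (by linarith) hΓ hΓQ htr
  set m : ℝ := ∑ e, w e with hmdef
  set M := MM s t w with hM
  set h' : V → ℝ := M *ᵥ h with hh'
  set u : ℝ := h ⬝ᵥ h with hu
  set u' : ℝ := h' ⬝ᵥ h' with hu'
  have hQ0 : 0 < Q := by linarith
  have hu'0 : 0 < u' := by linarith
  have huu : u' ≤ u := contr hw h
  have hu0 : 0 < u := by linarith
  have su : 0 < √u := Real.sqrt_pos.2 hu0
  have su' : 0 < √u' := Real.sqrt_pos.2 hu'0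
  have sQ : 0 < √Q := Real.sqrt_pos.2 hQ0
  have suu : √u * √u = u := Real.mul_self_sqrt hu0.le
  have suu' : √u' * √u' = u' := Real.mul_self_sqrt hu'0.le
  -- r
  set r0 : ℝ := u' ^ ((1 - Γ) / 2) with hr0
  have hr0pos : 0 < r0 := Real.rpow_pos_of_pos hu'0 _
  have hr : r0 ≤ √u' / √u := by
    rw [le_div_iff₀ su]
    have h1 : √u ≤ u' ^ (Γ / 2) := by
      have h2 : u' ^ (Γ / 2) = √(u' ^ Γ) := by
        rw [Real.sqrt_eq_rpow, ← Real.rpow_mul hu'0.le]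
        congr 1
        ring
      rw [h2]
      exact Real.sqrt_le_sqrt hhr
    calc r0 * √u ≤ r0 * u' ^ (Γ / 2) := mul_le_mul_of_nonneg_left h1 hr0pos.le
      _ = √u' := by
        rw [hr0, ← Real.rpow_add hu'0, Real.sqrt_eq_rpow]
        congr 1
        ring
  have hr4 : 4 / √u' ≤ r0 := by
    rw [div_le_iff₀ su']
    have h1 : r0 * √u' = u' ^ (1 - Γ / 2) := by
      rw [hr0, Real.sqrt_eq_rpow, ← Real.rpow_add hu'0]
      congr 1
      ring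
    rw [h1]
    calc (4 : ℝ) = (256 : ℝ) ^ ((1 : ℝ) / 4) := by
          have : (256 : ℝ) = 4 ^ (4 : ℝ) := by norm_num
          rw [this, ← Real.rpow_mul (by norm_num)]
          norm_num
      _ ≤ u' ^ ((1 : ℝ) / 4) := Real.rpow_le_rpow (by norm_num) (by linarith) (by norm_num)
      _ ≤ u' ^ (1 - Γ / 2) := Real.rpow_le_rpow_of_exponent_le (by linarith) (by linarith)
  set θ : ℝ := r0 / 4 with hθdef
  have hθ : 0 < θ := by positivity
  have hh'0 : ∀ x, 0 ≤ h' x := mv_nonneg hw hh0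
  have hdg : ∀ x, 0 ≤ dg s t w x := dg_nonneg hw
  have hπ0 : ∀ x, 0 ≤ dg s t w x / (2 * m) := fun x => div_nonneg (hdg x) (by positivity)
  have s2m : 0 < √(2 * m) := Real.sqrt_pos.2 (by positivity)
  have s2mm : √(2 * m) * √(2 * m) = 2 * m := Real.mul_self_sqrt (by positivity)
  have hsπ : ∀ x, √(dg s t w x / (2 * m)) = √(dg s t w x) / √(2 * m) := fun x =>
    Real.sqrt_div (hdg x) _
  have hh'1 : ∑ x, √(dg s t w x / (2 * m)) * h' x = 1 := by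
    have e1 : ∀ k : V → ℝ, ∑ x, √(dg s t w x / (2 * m)) * k x =
        ((fun x => √(dg s t w x)) ⬝ᵥ k) / √(2 * m) := by
      intro k
      rw [dotProduct, Finset.sum_div]
      refine Finset.sum_congr rfl fun x _ => ?_
      rw [hsπ]
      ring
    rw [e1, hh', hM, dot_comm_M, MM_mulVec_sqrt hw, ← e1]
    exact hh1
  -- H and G
  set H : V → ℝ := fun x => h x / √u + h' x / √u' with hH
  have hH0 : ∀ x, 0 ≤ H x := fun x =>
    add_nonneg (div_nonneg (hh0 x) su.le) (div_nonneg (hh'0 x) su'.le)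
  set G : V → ℝ := fun x => H x / √(dg s t w x / (2 * m)) with hG
  have hG0 : ∀ x, 0 ≤ G x := fun x => div_nonneg (hH0 x) (Real.sqrt_nonneg _)
  have hGe : ∀ x, G x = √(2 * m) * (H x / √(dg s t w x)) := by
    intro x
    rw [hG]
    dsimp only
    rw [hsπ, div_div_eq_mul_div]
    ring
  -- the sum of pi * G
  have hπG : ∑ x, dg s t w x * G x ≤ 4 * m / √u' := by
    have e1 : ∀ x, dg s t w x * G x = 2 * m * (√(dg s t w x / (2 * m)) * H x) := by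
      intro x
      have e2 : dg s t w x * G x = 2 * m * ((dg s t w x / (2 * m)) /
          √(dg s t w x / (2 * m)) * H x) := by
        rw [hG]
        dsimp only
        field_simp
      rw [e2, Real.div_sqrt]
    have e3 : ∑ x, √(dg s t w x / (2 * m)) * H x = 1 / √u + 1 / √u' := by
      have : ∀ x, √(dg s t w x / (2 * m)) * H x =
          √(dg s t w x / (2 * m)) * h x / √u + √(dg s t w x / (2 * m)) * h' x / √u' := by
        intro x
        rw [hH]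
        ring
      simp_rw [this]
      rw [Finset.sum_add_distrib, ← Finset.sum_div, ← Finset.sum_div, hh1, hh'1]
    simp_rw [e1]
    rw [← Finset.mul_sum, e3]
    have e5 : 1 / √u ≤ 1 / √u' :=
      one_div_le_one_div_of_le su' (Real.sqrt_le_sqrt huu)
    calc 2 * m * (1 / √u + 1 / √u') ≤ 2 * m * (1 / √u' + 1 / √u') :=
          mul_le_mul_of_nonneg_left (add_le_add e5 le_rfl) (by positivity)
      _ = 4 * m / √u' := by ring
  -- H . H
  have hHH : H ⬝ᵥ H ≤ 4 := by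
    have e1 : H ⬝ᵥ H ≤ ∑ x, (2 * (h x * h x) / u + 2 * (h' x * h' x) / u') := by
      refine Finset.sum_le_sum fun x _ => ?_
      have e2 : (h x / √u) ^ 2 = h x * h x / u := by rw [div_pow, sq, sq, suu]
      have e3 : (h' x / √u') ^ 2 = h' x * h' x / u' := by rw [div_pow, sq, sq, suu']
      calc H x * H x = (h x / √u + h' x / √u') ^ 2 := by rw [hH]; ring
        _ ≤ 2 * (h x / √u) ^ 2 + 2 * (h' x / √u') ^ 2 := by
            nlinarith [sq_nonneg (h x / √u - h' x / √u')]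
        _ = _ := by rw [e2, e3]; ring
    rw [Finset.sum_add_distrib, ← Finset.sum_div, ← Finset.sum_div, ← Finset.mul_sum,
      ← Finset.mul_sum] at e1
    have e4 : ∑ x, h x * h x = u := rfl
    have e5 : ∑ x, h' x * h' x = u' := rfl
    rw [e4, e5, mul_div_assoc, mul_div_assoc, div_self hu0.ne', div_self hu'0.ne'] at e1
    linarith
  -- H . M H
  have hHMH : 2 * (√u' / √u) ≤ H ⬝ᵥ (M *ᵥ H) := by
    have e1 : H = (√u)⁻¹ • h + (√u')⁻¹ • h' := by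
      funext x
      simp only [hH, Pi.add_apply, Pi.smul_apply, smul_eq_mul]
      ring
    have e2 : H ⬝ᵥ (M *ᵥ H) = (√u)⁻¹ * ((√u)⁻¹ * (h ⬝ᵥ (M *ᵥ h))) +
        (√u)⁻¹ * ((√u')⁻¹ * (h ⬝ᵥ (M *ᵥ h'))) + ((√u')⁻¹ * ((√u)⁻¹ * (h' ⬝ᵥ (M *ᵥ h))) +
        (√u')⁻¹ * ((√u')⁻¹ * (h' ⬝ᵥ (M *ᵥ h')))) := by
      rw [e1]
      simp only [Matrix.mulVec_add, Matrix.mulVec_smul, add_dotProduct, dotProduct_add,
        smul_dotProduct, dotProduct_smul, smul_eq_mul]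
      ring
    have e3 : h ⬝ᵥ (M *ᵥ h') = u' := by
      rw [hM, dot_comm_M]
    have e4 : h' ⬝ᵥ (M *ᵥ h) = u' := rfl
    have e5 : 0 ≤ h ⬝ᵥ (M *ᵥ h) := dot_nonneg hh0 hh'0
    have e6 : 0 ≤ h' ⬝ᵥ (M *ᵥ h') := dot_nonneg hh'0 (mv_nonneg hw hh'0)
    rw [e2, e3, e4]
    have e70 : (√u')⁻¹ * u' = √u' := by
      rw [mul_comm, ← div_eq_mul_inv, Real.div_sqrt]
    have e7 : (√u)⁻¹ * ((√u')⁻¹ * u') = √u' / √u := by
      rw [e70, mul_comm, ← div_eq_mul_inv]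
    have e8 : (√u')⁻¹ * ((√u)⁻¹ * u') = √u' / √u := by
      rw [mul_left_comm, e7]
    rw [e7, e8]
    have e9 : 0 ≤ (√u)⁻¹ * ((√u)⁻¹ * (h ⬝ᵥ (M *ᵥ h))) := by positivity
    have e10 : 0 ≤ (√u')⁻¹ * ((√u')⁻¹ * (h' ⬝ᵥ (M *ᵥ h'))) := by positivity
    linarith
  -- edges
  have hGG : ∑ e, w e * (G (s e) * G (t e)) = m * (H ⬝ᵥ (M *ᵥ H)) := by
    rw [hM, bil hw H H, Finset.mul_sum]
    refine Finset.sum_congr rfl fun e _ => ?_
    rw [hGe, hGe]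
    have : √(2 * m) * (H (s e) / √(dg s t w (s e))) * (√(2 * m) * (H (t e) / √(dg s t w (t e)))) =
        (√(2 * m) * √(2 * m)) * (H (s e) / √(dg s t w (s e)) * (H (t e) / √(dg s t w (t e)))) := by
      ring
    rw [this, s2mm]
    ring
  have hGsq : ∑ e, w e * (G (s e) ^ 2 + G (t e) ^ 2) ≤ 8 * m := by
    have e1 : ∑ e, w e * (G (s e) ^ 2 + G (t e) ^ 2) = 2 * m * ∑ e, w e *
        ((H (s e) / √(dg s t w (s e))) ^ 2 + (H (t e) / √(dg s t w (t e))) ^ 2) := by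
      rw [Finset.mul_sum]
      refine Finset.sum_congr rfl fun e _ => ?_
      rw [hGe, hGe, mul_pow, mul_pow, sq (√(2 * m)), s2mm]
      ring
    rw [e1]
    have e2 := dot_ge (s := s) (t := t) hw H
    calc _ ≤ 2 * m * 4 := mul_le_mul_of_nonneg_left (e2.trans hHH) (by positivity)
      _ = 8 * m := by ring
  have hGsum : ∑ e, w e * (G (s e) + G (t e)) ≤ 4 * m / √u' := by
    rw [← sum_dg_mul]
    exact hπG
  -- the truncation
  set F : V → ℝ := fun x => max (G x - 1) 0 with hF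
  have hF0 : ∀ x, 0 ≤ F x := fun x => le_max_right _ _
  have hA : 4 * m * θ ≤ ∑ e, w e * (F (s e) * F (t e)) := by
    have e1 : ∑ e, w e * (G (s e) * G (t e)) - ∑ e, w e * (G (s e) + G (t e)) ≤
        ∑ e, w e * (F (s e) * F (t e)) := by
      rw [← Finset.sum_sub_distrib]
      refine Finset.sum_le_sum fun e _ => ?_
      rw [← mul_sub]
      exact mul_le_mul_of_nonneg_left (trunc_mul (hG0 _) (hG0 _)) (hw e)
    have e2 : m * (2 * (√u' / √u)) ≤ ∑ e, w e * (G (s e) * G (t e)) := by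
      rw [hGG]
      exact mul_le_mul_of_nonneg_left hHMH hm.le
    have e3 : m * (2 * r0) ≤ m * (2 * (√u' / √u)) :=
      mul_le_mul_of_nonneg_left (by linarith) hm.le
    have e4 : 4 * m / √u' ≤ m * r0 := by
      have : 4 * m / √u' = m * (4 / √u') := by ring
      rw [this]
      exact mul_le_mul_of_nonneg_left hr4 hm.le
    have e5 : 4 * m * θ = m * r0 := by rw [hθdef]; ring
    linarith
  have hB : (∑ e, w e * (F (s e) ^ 2 + F (t e) ^ 2)) / 2 ≤ 4 * m := by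
    have e1 : ∑ e, w e * (F (s e) ^ 2 + F (t e) ^ 2) ≤ ∑ e, w e * (G (s e) ^ 2 + G (t e) ^ 2) :=
      Finset.sum_le_sum fun e _ => mul_le_mul_of_nonneg_left
        (add_le_add (trunc_sq (hG0 _)) (trunc_sq (hG0 _))) (hw e)
    linarith
  have hA0 : 0 < ∑ e, w e * (F (s e) * F (t e)) := lt_of_lt_of_le (by positivity) hA
  obtain ⟨S, hS1, hS2, hS3⟩ := level (s := s) (t := t) hw hF0 hθ hA0 (by
    calc θ * ((∑ e, w e * (F (s e) ^ 2 + F (t e) ^ 2)) / 2) ≤ θ * (4 * m) :=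
          mul_le_mul_of_nonneg_left hB hθ.le
      _ = 4 * m * θ := by ring
      _ ≤ _ := hA)
  have hS4 : ∀ x ∈ S, 1 < G x := by
    intro x hx
    have := hS1 x hx
    rw [hF] at this
    dsimp only at this
    rcases lt_max_iff.1 this with h1 | h1
    · linarith
    · exact absurd h1 (lt_irrefl _)
  refine ⟨S, u', hhQ, ?_, hS2, ?_, ?_⟩
  · intro x hx
    refine lt_of_le_of_ne (hdg x) fun h0 => ?_
    have h1 := hS4 x hx
    rw [hGe, ← h0, Real.sqrt_zero, div_zero, mul_zero] at h1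
    linarith
  · calc ∑ x ∈ S, dg s t w x ≤ ∑ x ∈ S, dg s t w x * G x :=
          Finset.sum_le_sum fun x hx => le_mul_of_one_le_right (hdg x) (hS4 x hx).le
      _ ≤ ∑ x, dg s t w x * G x := Finset.sum_le_sum_of_subset_of_nonneg (Finset.subset_univ _)
          fun x _ _ => mul_nonneg (hdg x) (hG0 x)
      _ ≤ _ := hπG

  · have h1 : θ ^ 2 / 2 = u' ^ (1 - Γ) / 32 := by
      rw [hθdef, div_pow, hr0, ← Real.rpow_natCast, ← Real.rpow_mul hu'0.le]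
      have : (1 - Γ) / 2 * ((2 : ℕ) : ℝ) = 1 - Γ := by
        push_cast
        ring
      rw [this]
      ring
    rw [h1] at hS3
    have h2 : u' ^ (Γ - 1) * u' ^ (1 - Γ) = 1 := by
      rw [← Real.rpow_add hu'0]
      have : Γ - 1 + (1 - Γ) = 0 := by ring
      rw [this, Real.rpow_zero]
    have h3 : 0 < u' ^ (Γ - 1) := Real.rpow_pos_of_pos hu'0 _
    have h4 := mul_le_mul_of_nonneg_left hS3 (by positivity : 0 ≤ 32 * u' ^ (Γ - 1))
    have h5 : 32 * u' ^ (Γ - 1) * (u' ^ (1 - Γ) / 32 * ∑ x ∈ S, dg s t w x) =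
        (u' ^ (Γ - 1) * u' ^ (1 - Γ)) * ∑ x ∈ S, dg s t w x := by ring
    rw [h5, h2, one_mul] at h4
    linarith

end Pool.Agent.Lib.P325F
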